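import Pool.Agent.TH843.PY.Core11
import Pool.Agent.TH365.J204
import Pool.Agent.TH830.J205
import Pool.Agent.TH409.J206
import Pool.Agent.TH241.J207
import Pool.Agent.TH73.J208
import Pool.Agent.TH644.J209
import Pool.Agent.TH897.J210
import Pool.Agent.TH511.J211
import Pool.Agent.TH511.J212

/-!
# Assembly: every positive integer is the Pythagoras number of the ring of integers of an
infinite totally real algebraic extension of `ℚ`
-/

set_option autoImplicit false
open Polynomial NumberField

namespace Pool.Agent.TH843.PY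

theorem stmA : StmA := by
  intro N
  obtain ⟨q, hq, t, ht⟩ := Pool.Agent.TH365.J204.stmA1 N
  obtain ⟨h1, h2, h3, h4, h5⟩ := Pool.Agent.TH409.J206.stmA3 q t ht
  exact ⟨q, hq, ht.1, DP q t,
    { monic := h1, deg := h2, irr := h3, real := h4, lead := h5,
      mono := Pool.Agent.TH830.J205.stmA2 q t ht }⟩

theorem stmB : StmB := Pool.Agent.TH73.J208.stmB_of_B1 Pool.Agent.TH241.J207.stmB1

theorem stmML : StmML := stmML_of stmA stmB

theorem target_all (n : ℕ) (hn : 1 ≤ n) : Target n := by
  rcases Nat.lt_or_ge n 3 with h | h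
  · interval_cases n
    · exact Pool.Agent.TH511.J211.stmG1
    · exact Pool.Agent.TH511.J212.stmG2
  · exact Pool.Agent.TH897.J210.stmF stmML Pool.Agent.TH644.J209.stmE n h

end Pool.Agent.TH843.PY
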