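import Mathlib

/-!
# Embeddings, traces and the Euler lemma
-/

set_option autoImplicit false
open Polynomial NumberField IntermediateField

namespace Pool.Agent.TH843.PY

/-- Extension of embeddings. -/
theorem exists_extend {K E : Type*} [Field K] [Field E] [Algebra K E] [Algebra.IsAlgebraic K E]
    (φ : K →+* ℂ) : ∃ ρ : E →+* ℂ, ∀ a : K, ρ (algebraMap K E a) = φ a := by
  let := φ.toAlgebra
  refine ⟨(IsAlgClosed.lift (R := K) (S := E) (M := ℂ)).toRingHom, fun a => ?_⟩
  exact (IsAlgClosed.lift (R := K) (S := E) (M := ℂ)).commutes a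

/-- Embeddings of a simple extension. -/
theorem exists_embed {K L : Type*} [Field K] [Field L] [Algebra K L] (v : L)
    (hv : IsIntegral K v) (φ : K →+* ℂ) (v' : ℂ) (hv' : (minpoly K v).eval₂ φ v' = 0) :
    ∃ ρ : K⟮v⟯ →+* ℂ, (∀ a : K, ρ (algebraMap K K⟮v⟯ a) = φ a) ∧
      ρ (AdjoinSimple.gen K v) = v' := by
  refine ⟨(AdjoinRoot.lift φ v' hv').comp
    (adjoinRootEquivAdjoin K hv).symm.toAlgHom.toRingHom, fun a => ?_, ?_⟩
  · simp
  · simp

/-- Conjugates of a trace are bounded. -/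
theorem trace_bound {K E : Type*} [Field K] [Field E] [CharZero K] [Algebra K E]
    [FiniteDimensional K E] (a : E) (X : ℝ) (h : ∀ ρ : E →+* ℂ, ‖ρ a‖ ≤ X) (φ : K →+* ℂ) :
    ‖φ (Algebra.trace K E a)‖ ≤ Module.finrank K E * X := by
  let := φ.toAlgebra
  have h1 : φ (Algebra.trace K E a) = ∑ σ : E →ₐ[K] ℂ, σ a :=
    trace_eq_sum_embeddings ℂ (K := K) (L := E) (x := a)
  rw [h1]
  calc ‖∑ σ : E →ₐ[K] ℂ, σ a‖ ≤ ∑ σ : E →ₐ[K] ℂ, ‖σ a‖ := norm_sum_le _ _
    _ ≤ ∑ σ : E →ₐ[K] ℂ, X := Finset.sum_le_sum fun σ _ => h σ.toRingHom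
    _ = Module.finrank K E * X := by
      rw [Finset.sum_const, Finset.card_univ, AlgHom.card K E ℂ, nsmul_eq_mul]

/-- The Euler lemma: `f'(w) z` in terms of traces. -/
theorem euler_lemma {K : Type*} [Field K] [CharZero K] [Algebra K ℂ] (w : ℂ)
    (hw : IsIntegral K w) (f : K[X]) (hf : aeval w f = 0) (z : K⟮w⟯) :
    aeval w (derivative f) * (z : ℂ) =
      ∑ l ∈ Finset.range (f.natDegree + 1), ∑ i ∈ Finset.range l,
        algebraMap K ℂ (f.coeff l) *
          algebraMap K ℂ (Algebra.trace K K⟮w⟯ (z * AdjoinSimple.gen K w ^ (l - 1 - i))) *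
            w ^ i := by
  have := adjoin.finiteDimensional hw
  have h1 : ∀ a : K⟮w⟯, algebraMap K ℂ (Algebra.trace K K⟮w⟯ a) = ∑ σ : K⟮w⟯ →ₐ[K] ℂ, σ a :=
    fun a => trace_eq_sum_embeddings ℂ (K := K) (L := K⟮w⟯) (x := a)
  set g := AdjoinSimple.gen K w with hg
  have h2 : ∀ σ : K⟮w⟯ →ₐ[K] ℂ, aeval (σ g) f = 0 := by
    intro σ
    rw [aeval_algHom_apply]
    have : aeval g f = 0 := by
      apply (algebraMap K⟮w⟯ ℂ).injective
      rw [map_zero, ← aeval_algebraMap_apply, AdjoinSimple.algebraMap_gen, hf]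
    rw [this, map_zero]
  have h3 : (∑ l ∈ Finset.range (f.natDegree + 1), ∑ i ∈ Finset.range l,
        algebraMap K ℂ (f.coeff l) *
          algebraMap K ℂ (Algebra.trace K K⟮w⟯ (z * g ^ (l - 1 - i))) * w ^ i) =
      ∑ σ : K⟮w⟯ →ₐ[K] ℂ, σ z * ∑ l ∈ Finset.range (f.natDegree + 1),
        algebraMap K ℂ (f.coeff l) * ∑ i ∈ Finset.range l, w ^ i * (σ g) ^ (l - 1 - i) := by
    simp_rw [h1, Finset.mul_sum, Finset.sum_mul]
    rw [Finset.sum_comm (s := Finset.univ)]
    refine Finset.sum_congr rfl fun l _ => ?_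
    rw [Finset.sum_comm (s := Finset.univ)]
    refine Finset.sum_congr rfl fun i _ => Finset.sum_congr rfl fun σ _ => ?_
    rw [map_mul, map_pow]
    ring
  rw [h3, Finset.sum_eq_single (K⟮w⟯.val)]
  · have hgw : K⟮w⟯.val g = w := AdjoinSimple.coe_gen K w
    have h4 : K⟮w⟯.val z = (z : ℂ) := rfl
    rw [hgw, h4, mul_comm]
    congr 1
    conv_lhs => rw [f.as_sum_range_C_mul_X_pow]
    rw [derivative_sum, map_sum]
    refine Finset.sum_congr rfl fun l _ => ?_
    rw [derivative_C_mul_X_pow, geom_sum₂_self]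
    simp only [map_mul, map_pow, aeval_X, aeval_C, map_natCast]
    ring
  · intro σ _ hσ
    have hne : σ g ≠ w := by
      intro h
      apply hσ
      apply adjoin_algHom_ext
      intro x hx
      rw [Set.mem_singleton_iff] at hx
      subst hx
      exact h
    have h5 : (∑ l ∈ Finset.range (f.natDegree + 1),
        algebraMap K ℂ (f.coeff l) * ∑ i ∈ Finset.range l, w ^ i * (σ g) ^ (l - 1 - i)) *
          (w - σ g) = 0 := by
      rw [Finset.sum_mul]
      have h6 : ∀ l ∈ Finset.range (f.natDegree + 1),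
          algebraMap K ℂ (f.coeff l) * (∑ i ∈ Finset.range l, w ^ i * (σ g) ^ (l - 1 - i)) *
          (w - σ g) = algebraMap K ℂ (f.coeff l) * w ^ l -
            algebraMap K ℂ (f.coeff l) * (σ g) ^ l := by
        intro l _
        rw [mul_assoc, (Commute.all w (σ g)).geom_sum₂_mul, mul_sub]
      rw [Finset.sum_congr rfl h6, Finset.sum_sub_distrib]
      have h7 := h2 σ
      rw [aeval_eq_sum_range] at hf h7
      simp_rw [Algebra.smul_def] at hf h7
      rw [hf, h7, sub_zero]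
    rcases mul_eq_zero.mp h5 with h | h
    · rw [h, mul_zero]
    · exact absurd (sub_eq_zero.mp h).symm hne
  · intro h
    exact absurd (Finset.mem_univ _) h

end Pool.Agent.TH843.PY
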