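import Pool.Agent.TH843.PY.Core6

/-!
# Control in `M = F(v)(w)` and the quadratic extension
-/

set_option autoImplicit false
open Polynomial NumberField IntermediateField

namespace Pool.Agent.TH843.PY

theorem exists_realHom {F : Type} [Field F] [NumberField F]
    (hTR : ∀ φ : F →+* ℂ, ∀ x : F, (φ x).im = 0) : Nonempty (F →+* ℝ) := by
  obtain ⟨φ⟩ : Nonempty (F →+* ℂ) :=
    ⟨(IsAlgClosed.lift (R := ℚ) (S := F) (M := ℂ)).toRingHom⟩
  exact ⟨toRealHom φ (hTR φ)⟩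

namespace Dat

variable {F : Type} [Field F] [NumberField F] [Algebra F ℂ] {y : F} {q k D : ℕ} {P : ℤ[X]}
    {R : (𝓞 F)[X]} {v w : ℂ}

theorem degRF (h : Dat y q k D P R v w) : (R.map (algebraMap (𝓞 F) F)).natDegree = k := by
  rw [natDegree_map_eq_of_injective Rinj, h.deg]

theorem degRF' (h : Dat y q k D P R v w) :
    (derivative (R.map (algebraMap (𝓞 F) F))).natDegree = k - 1 := by
  rw [natDegree_derivative, h.degRF]

theorem RF'_ne (h : Dat y q k D P R v w) : derivative (R.map (algebraMap (𝓞 F) F)) ≠ 0 := by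
  intro h0
  have := derivative_eq_zero.mp h0
  have h1 := h.degRF
  have h2 := h.hk
  omega

theorem D_ne (h : Dat y q k D P R v w) : (D : F) ≠ 0 := Nat.cast_ne_zero.mpr h.hD.ne'

/-- `D R'` does not vanish at `w`. -/
theorem DR_ne (h : Dat y q k D P R v w) (hkq : k < q) :
    (D : ℂ) * aeval w (derivative (R.map (algebraMap (𝓞 F) F))) ≠ 0 := by
  apply mul_ne_zero (Nat.cast_ne_zero.mpr h.hD.ne')
  intro h0
  exact h.RF'_ne (h.vanish _ (by rw [h.degRF']; omega) h0)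

theorem emb_y (_h : Dat y q k D P R v w) {Y : ℝ} (hY : ∀ φ : F →+* ℂ, ‖φ y‖ ≤ Y)
    (φ : F →+* ℂ) : (φ y).re ≤ Y := (Complex.re_le_norm _).trans (hY φ)

theorem bound_w (h : Dat y q k D P R v w) {Y : ℝ} (hY1 : 1 ≤ Y)
    (hY : ∀ φ : F →+* ℂ, ‖φ y‖ ≤ Y) (ρ : F⟮v⟯⟮w⟯ →+* ℂ) :
    ‖ρ (AdjoinSimple.gen F⟮v⟯ w)‖ ≤ Y := by
  obtain ⟨-, u, hu1, hu2⟩ := h.embed_M ρ
  have h1 := h.emb_y hY (ρ.comp (algebraMap F F⟮v⟯⟮w⟯))
  rw [RingHom.comp_apply] at h1
  rw [hu1, Complex.norm_real, Real.norm_eq_abs]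
  apply abs_le_of_sq_le_sq _ (by linarith)
  nlinarith

theorem ctrl (h : Dat y q k D P R v w) (z : F⟮v⟯⟮w⟯) (hz : IsIntegral ℤ z) (B Y : ℝ)
    (hB : ∀ ρ : F⟮v⟯⟮w⟯ →+* ℂ, ‖ρ z‖ ≤ B) (hY1 : 1 ≤ Y) (hY : ∀ φ : F →+* ℂ, ‖φ y‖ ≤ Y)
    (L : ℕ) (hL : 2 * D * (k * (B * Y ^ k)) < 2 ^ (L + 1)) :
    ∃ G : (𝓞 F)[X], G.natDegree ≤ k * L + (k - 1) ∧
      aeval w (G.map (algebraMap (𝓞 F) F)) =
        D * aeval w (derivative (R.map (algebraMap (𝓞 F) F))) * (z : ℂ) :=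
  ctrlM D h.dual h.good h.prime h.hd v h.hv R h.unit k h.deg h.hk w h.hw z hz B Y hB hY1
    (h.bound_w hY1 hY) L hL

omit [NumberField F] [Algebra F ℂ] in
theorem deg_yX (y : F) : (C y - X ^ 2 : F[X]).natDegree = 2 := by
  rw [natDegree_sub_eq_right_of_natDegree_lt]
  · simp
  · simp

omit [NumberField F] [Algebra F ℂ] in
theorem ne_yX (y : F) : (C y - X ^ 2 : F[X]) ≠ 0 := by
  intro h
  have := deg_yX y
  rw [h, natDegree_zero] at this
  omega

omit [NumberField F] [Algebra F ℂ] in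
theorem lc_yX (y : F) : (C y - X ^ 2 : F[X]).leadingCoeff = -1 := by
  rw [leadingCoeff, deg_yX, coeff_sub, coeff_C_of_ne_zero (by norm_num), coeff_X_pow_self]
  ring

/-- The square root of `y - w ^ 2` is a new element. -/
theorem notmem (h : Dat y q k D P R v w) (Y : ℝ) (hY1 : 1 ≤ Y)
    (hY : ∀ φ : F →+* ℂ, ‖φ y‖ ≤ Y) (L : ℕ) (hL : 2 * D * (k * (Y * Y ^ k)) < 2 ^ (L + 1))
    (hq : 2 * (k * L + (k - 1)) + 2 * k < q) (u : ℂ) (hu : u ^ 2 = algebraMap F ℂ y - w ^ 2) :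
    u ∉ F⟮v⟯⟮w⟯ := by
  intro hmem
  set z : F⟮v⟯⟮w⟯ := ⟨u, hmem⟩ with hz
  have hz2 : z ^ 2 = algebraMap F F⟮v⟯⟮w⟯ y - AdjoinSimple.gen F⟮v⟯ w ^ 2 := by
    apply (algebraMap F⟮v⟯⟮w⟯ ℂ).injective
    rw [map_pow, map_sub, map_pow, AdjoinSimple.algebraMap_gen]
    exact hu
  have huint : IsIntegral ℤ u := by
    apply IsIntegral.of_pow (n := 2) (by norm_num)
    rw [hu]
    exact (h.hy.map (algebraMap F ℂ).toIntAlgHom).sub (h.wint.pow 2)
  have hzint : IsIntegral ℤ z :=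
    (isIntegral_algebraMap_iff (algebraMap F⟮v⟯⟮w⟯ ℂ).injective).mp huint
  have hzB : ∀ ρ : F⟮v⟯⟮w⟯ →+* ℂ, ‖ρ z‖ ≤ Y := by
    intro ρ
    obtain ⟨hr, t, ht1, ht2⟩ := h.embed_M ρ
    have h1 := h.emb_y hY (ρ.comp (algebraMap F F⟮v⟯⟮w⟯))
    rw [RingHom.comp_apply] at h1
    have h2 := congrArg (fun a => (ρ a).re) hz2
    simp only [map_pow, map_sub, ht1] at h2
    have hzr := hr z
    have h3 : ρ z = ((ρ z).re : ℂ) := Complex.ext (by simp) (by simp [hzr])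
    rw [h3] at h2
    rw [h3, Complex.norm_real, Real.norm_eq_abs]
    apply abs_le_of_sq_le_sq _ (by linarith)
    simp only [← Complex.ofReal_pow, Complex.ofReal_re, Complex.sub_re] at h2
    rw [h2]
    nlinarith [sq_nonneg t]
  obtain ⟨G, hGdeg, hG⟩ := h.ctrl z hzint Y Y hzB hY1 hY L hL
  set RF' := derivative (R.map (algebraMap (𝓞 F) F)) with hRF'
  have hid : (G.map (algebraMap (𝓞 F) F)) ^ 2 = (C (D : F) * RF') ^ 2 * (C y - X ^ 2) := by
    rw [← sub_eq_zero]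
    apply h.vanish
    · refine lt_of_le_of_lt (natDegree_sub_le _ _) (max_lt ?_ ?_)
      · refine lt_of_le_of_lt natDegree_pow_le ?_
        have := natDegree_map_le (f := algebraMap (𝓞 F) F) (p := G)
        have hk := h.hk
        calc 2 * (G.map (algebraMap (𝓞 F) F)).natDegree ≤ 2 * (k * L + (k - 1)) := by
              exact Nat.mul_le_mul_left 2 (this.trans hGdeg)
          _ < q := by omega
      · refine lt_of_le_of_lt natDegree_mul_le ?_
        rw [deg_yX]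
        have h1 : ((C (D : F) * RF') ^ 2).natDegree ≤ 2 * (k - 1) := by
          refine natDegree_pow_le.trans (Nat.mul_le_mul_left 2 ?_)
          refine (natDegree_C_mul_le _ _).trans ?_
          rw [h.degRF']
        have hk := h.hk
        omega
    · rw [map_sub, map_pow, map_mul, map_pow, map_mul, aeval_C, map_sub, aeval_C, map_pow, aeval_X,
        hG, ← hu, map_natCast]
      ring
  have hlc := congrArg leadingCoeff hid
  rw [leadingCoeff_mul, lc_yX, leadingCoeff_pow, leadingCoeff_pow] at hlc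
  obtain ⟨φ0⟩ := exists_realHom h.tr
  have h5 := congrArg φ0 hlc
  rw [map_mul, map_pow, map_pow, map_neg, map_one] at h5
  have h6 : φ0 (C (D : F) * RF').leadingCoeff = 0 := by
    have e1 := sq_nonneg (φ0 (C (D : F) * RF').leadingCoeff)
    have e2 := sq_nonneg (φ0 (G.map (algebraMap (𝓞 F) F)).leadingCoeff)
    have e3 : φ0 (C (D : F) * RF').leadingCoeff ^ 2 = 0 := by linarith
    exact pow_eq_zero_iff two_ne_zero |>.mp e3
  rw [_root_.map_eq_zero, leadingCoeff_eq_zero, mul_eq_zero, C_eq_zero] at h6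
  rcases h6 with h6 | h6
  · exact h.D_ne h6
  · exact h.RF'_ne h6

end Dat

end Pool.Agent.TH843.PY
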