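import Pool.Agent.TH843.PY.Core4
import Pool.Agent.TH843.PY.Core7

/-!
# The length of `x` is preserved: the polynomial part
-/

set_option autoImplicit false
open Polynomial NumberField IntermediateField

namespace Pool.Agent.TH843.PY

theorem norm_poly_top {F : Type} [Field F] [CharZero F] (y : F) (g h : F[X]) (K : ℕ)
    (hK : 1 ≤ K) (hg : g.natDegree ≤ K) (hh : h.natDegree + 1 ≤ K) :
    (C (1 / 4 : F) * (g ^ 2 - (C y - X ^ 2) * h ^ 2)).natDegree ≤ 2 * K ∧
    (C (1 / 4 : F) * (g ^ 2 - (C y - X ^ 2) * h ^ 2)).coeff (2 * K) =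
      (g.coeff K ^ 2 + h.coeff (K - 1) ^ 2) / 4 := by
  obtain ⟨m, hm⟩ : ∃ m, K = m + 1 := ⟨K - 1, by omega⟩
  have hhm : h.natDegree ≤ m := by omega
  constructor
  · refine (natDegree_C_mul_le _ _).trans ?_
    refine (natDegree_sub_le _ _).trans (max_le ?_ ?_)
    · exact natDegree_pow_le.trans (Nat.mul_le_mul_left 2 hg)
    · refine natDegree_mul_le.trans ?_
      rw [Dat.deg_yX]
      have : (h ^ 2).natDegree ≤ 2 * m := natDegree_pow_le.trans (Nat.mul_le_mul_left 2 hhm)
      omega
  · rw [coeff_C_mul, coeff_sub, sub_mul, coeff_sub, coeff_pow_of_natDegree_le hg, coeff_C_mul]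
    have e1 : (h ^ 2).coeff (2 * K) = 0 := by
      apply coeff_eq_zero_of_natDegree_lt
      have : (h ^ 2).natDegree ≤ 2 * m := natDegree_pow_le.trans (Nat.mul_le_mul_left 2 hhm)
      omega
    have e2 : (X ^ 2 * h ^ 2).coeff (2 * K) = h.coeff (K - 1) ^ 2 := by
      have : 2 * K = 2 * m + 2 := by omega
      rw [this, coeff_X_pow_mul, coeff_pow_of_natDegree_le hhm]
      congr 2
      omega
    rw [e1, e2]
    ring

theorem natDegree_le_of_mul {F : Type} [Field F] (Q g G : F[X]) (hQ : Q ≠ 0) (h : G = Q * g) :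
    g.natDegree ≤ G.natDegree := by
  by_cases hg : g = 0
  · rw [hg, natDegree_zero]; exact Nat.zero_le _
  · rw [h, natDegree_mul hQ hg]; omega

namespace Dat

variable {F : Type} [Field F] [NumberField F] [Algebra F ℂ] {y : F} {q k D : ℕ} {P : ℤ[X]}
    {R : (𝓞 F)[X]} {v w : ℂ}

/-- The polynomial part of the argument. -/
theorem final (h : Dat y q k D P R v w) (x : F) {r : ℕ}
    (hnot : ¬ ∃ f : Fin r → F, (∀ i, IsIntegral ℤ (f i)) ∧ x = ∑ i, f i ^ 2)
    (hx : ∀ φ : F →+* ℝ, 0 < φ x) (hypos : ∀ φ : F →+* ℝ, 0 < φ y)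
    (h4 : (4 : ℝ) ^ (Module.finrank ℚ F) < ∏ φ : F →+* ℝ, φ y) (N : ℕ)
    (hN : ((D * k : ℕ) : ℝ) ^ (Module.finrank ℚ F) * (∏ φ : F →+* ℝ, φ x) ^ N <
      (∏ φ : F →+* ℝ, φ y) ^ N)
    (u : ℂ) (hu : u ^ 2 = algebraMap F ℂ y - w ^ 2) (hu0 : u ≠ 0)
    (a b ν z : Fin r → ℂ) (hzint : ∀ j, IsIntegral ℤ (z j))
    (hsum : ∑ j, z j ^ 2 = algebraMap F ℂ x)
    (he1 : ∀ j, 2 * u * z j = b j + a j * u) (hab : ∑ j, a j * b j = 0)
    (hν : ∀ j, ν j = z j * (a j - z j)) (Dg : ℕ) (G H T : Fin r → (𝓞 F)[X])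
    (hG : ∀ j, (G j).natDegree ≤ Dg) (hH : ∀ j, (H j).natDegree ≤ Dg)
    (hT : ∀ j, (T j).natDegree ≤ Dg)
    (hGe : ∀ j, aeval w ((G j).map (algebraMap (𝓞 F) F)) =
        D * aeval w (derivative (R.map (algebraMap (𝓞 F) F))) * a j)
    (hHe : ∀ j, aeval w ((H j).map (algebraMap (𝓞 F) F)) =
        D * aeval w (derivative (R.map (algebraMap (𝓞 F) F))) * b j)
    (hTe : ∀ j, aeval w ((T j).map (algebraMap (𝓞 F) F)) =
        D * aeval w (derivative (R.map (algebraMap (𝓞 F) F))) * (ν j) ^ N)
    (hq : 2 * Dg + 2 * k + 4 + 2 * (Dg + 1) * N < q) : False := by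
  classical
  have hk := h.hk
  set RF := R.map (algebraMap (𝓞 F) F) with hRF
  set RF' := derivative RF with hRF'
  have hdR' : RF'.natDegree = k - 1 := h.degRF'
  have hR'0 : RF' ≠ 0 := h.RF'_ne
  have hD0 : (D : F) ≠ 0 := h.D_ne
  set G' : Fin r → F[X] := fun j => (G j).map (algebraMap (𝓞 F) F) with hG'
  set H' : Fin r → F[X] := fun j => (H j).map (algebraMap (𝓞 F) F) with hH'
  have hG'd : ∀ j, (G' j).natDegree ≤ Dg := fun j => natDegree_map_le.trans (hG j)
  have hH'd : ∀ j, (H' j).natDegree ≤ Dg := fun j => natDegree_map_le.trans (hH j)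
  have hδ : (D : ℂ) * aeval w RF' ≠ 0 := h.DR_ne (by omega)
  set δ : ℂ := (D : ℂ) * aeval w RF' with hδd
  -- identities
  have hid1 : ∑ j, G' j * H' j = 0 := by
    apply h.vanish
    · refine lt_of_le_of_lt (natDegree_sum_le_of_forall_le _ _ (n := 2 * Dg) fun j _ => ?_)
        (by omega)
      refine natDegree_mul_le.trans ?_
      have := hG'd j
      have := hH'd j
      omega
    · rw [map_sum]
      simp_rw [map_mul, hG', hH', hGe, hHe]
      have : ∀ j, δ * a j * (δ * b j) = δ ^ 2 * (a j * b j) := fun j => by ring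
      simp_rw [this]
      rw [← Finset.mul_sum, hab, mul_zero]
  have hid2 : (C y - X ^ 2) * ∑ j, (G' j) ^ 2 + ∑ j, (H' j) ^ 2 =
      4 * (C (D : F) * RF') ^ 2 * C x * (C y - X ^ 2) := by
    rw [← sub_eq_zero]
    apply h.vanish
    · refine lt_of_le_of_lt (natDegree_sub_le _ _) (max_lt ?_ ?_)
      · refine lt_of_le_of_lt (natDegree_add_le _ _) (max_lt ?_ ?_)
        · refine lt_of_le_of_lt natDegree_mul_le ?_
          rw [deg_yX]
          have : (∑ j, (G' j) ^ 2).natDegree ≤ 2 * Dg :=
            natDegree_sum_le_of_forall_le _ _ fun j _ =>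
              natDegree_pow_le.trans (Nat.mul_le_mul_left 2 (hG'd j))
          omega
        · have : (∑ j, (H' j) ^ 2).natDegree ≤ 2 * Dg :=
            natDegree_sum_le_of_forall_le _ _ fun j _ =>
              natDegree_pow_le.trans (Nat.mul_le_mul_left 2 (hH'd j))
          omega
      · have e1 : (4 * (C (D : F) * RF') ^ 2 * C x * (C y - X ^ 2) : F[X]) =
            C 4 * (C (D : F) * RF') ^ 2 * C x * (C y - X ^ 2) := by rw [map_ofNat]
        rw [e1]
        refine lt_of_le_of_lt natDegree_mul_le ?_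
        rw [deg_yX]
        have e2 : (C 4 * (C (D : F) * RF') ^ 2 * C x : F[X]).natDegree ≤ 2 * (k - 1) := by
          refine (natDegree_mul_C_le _ _).trans ?_
          refine (natDegree_C_mul_le _ _).trans ?_
          refine natDegree_pow_le.trans (Nat.mul_le_mul_left 2 ?_)
          refine (natDegree_C_mul_le _ _).trans ?_
          rw [hdR']
        omega
    · simp only [map_sub, map_add, map_mul, map_pow, map_sum, aeval_C, aeval_X, map_ofNat,
        map_natCast, hG', hH', hGe, hHe]
      rw [← hu, ← hδd]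
      have e1 : ∀ j, (δ * b j) ^ 2 = δ ^ 2 * (2 * u * z j - a j * u) ^ 2 := fun j => by
        rw [he1 j]; ring
      have e3 : ∀ j, b j = 2 * u * z j - a j * u := fun j => by rw [he1 j]; ring
      have e2 : ∑ j, a j * (2 * u * z j - a j * u) = 0 := by
        simp_rw [← e3]; exact hab
      have e4 : u ^ 2 * ∑ j, (δ * a j) ^ 2 + ∑ j, (δ * b j) ^ 2 =
          δ ^ 2 * (∑ j, (u ^ 2 * a j ^ 2 + (2 * u * z j - a j * u) ^ 2)) := by
        rw [Finset.mul_sum, Finset.mul_sum, ← Finset.sum_add_distrib]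
        refine Finset.sum_congr rfl fun j _ => ?_
        rw [e1]; ring
      rw [e4]
      have e5 : ∑ j, (u ^ 2 * a j ^ 2 + (2 * u * z j - a j * u) ^ 2) =
          4 * u ^ 2 * ∑ j, z j ^ 2 - 2 * u * ∑ j, a j * (2 * u * z j - a j * u) := by
        rw [Finset.mul_sum, Finset.mul_sum, ← Finset.sum_sub_distrib]
        refine Finset.sum_congr rfl fun j _ => ?_
        ring
      rw [e5, e2, hsum]
      ring
  -- divide
  obtain ⟨φ0⟩ := exists_realHom h.tr
  obtain ⟨s, hs, hsr⟩ := h.roots φ0 0 (by norm_num)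
  obtain ⟨g, hh, hg1, hh1, hgh, hgg⟩ := quot_lemma φ0 y x (D : F) hD0 RF k hk h.degRF s hs
    (fun t ht => ⟨(hsr t ht).1, by rw [hRF, Polynomial.map_map]; exact (hsr t ht).2⟩)
    G' H' hid1 hid2
  have hag : ∀ j, a j = aeval w (g j) := by
    intro j
    have e1 := congrArg (aeval w) (hg1 j)
    rw [map_mul, map_mul, aeval_C, map_natCast] at e1
    have e2 : aeval w (G' j) = δ * a j := hGe j
    rw [e2] at e1
    exact mul_left_cancel₀ hδ e1
  have hbh : ∀ j, b j = u ^ 2 * aeval w (hh j) := by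
    intro j
    have e1 := congrArg (aeval w) (hh1 j)
    rw [map_mul, map_mul, map_mul, aeval_C, map_natCast, map_sub, aeval_C, map_pow, aeval_X,
      ← hu] at e1
    have e2 : aeval w (H' j) = δ * b j := hHe j
    apply mul_left_cancel₀ hδ
    rw [← e2, e1, hδd, hRF']
    ring
  have hzgh : ∀ j, 2 * z j = aeval w (g j) + aeval w (hh j) * u := by
    intro j
    have e1 := he1 j
    rw [hag, hbh] at e1
    apply mul_left_cancel₀ hu0
    linear_combination e1
  have hQ0 : C (D : F) * RF' ≠ 0 := mul_ne_zero (C_ne_zero.mpr hD0) hR'0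
  rcases top_lemma φ0 y x g hh hgh hgg (Dg + 1)
      (fun j => ((natDegree_le_of_mul _ _ _ hQ0 (hg1 j)).trans (hG'd j)).trans (Nat.le_succ _))
      (fun j => Nat.succ_le_succ ((natDegree_le_of_mul _ _ _ (mul_ne_zero hQ0 (ne_yX y))
        (hh1 j)).trans (hH'd j))) with
    ⟨hA1, hA2⟩ | ⟨K, hK1, hKDg, hgK, hhK, hAB, j1, j2, hj, hκ1, hκ2⟩
  · -- constants
    apply hnot
    have e1 : ∀ j, g j = C ((g j).coeff 0) := fun j => eq_C_of_natDegree_eq_zero (hA2 j)
    have e2 : ∀ j, z j = algebraMap F ℂ ((g j).coeff 0 / 2) := by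
      intro j
      have e3 := hzgh j
      rw [hA1 j, map_zero, zero_mul, add_zero, e1 j, aeval_C] at e3
      rw [map_div₀, map_ofNat, eq_div_iff two_ne_zero, mul_comm]
      exact e3
    refine ⟨fun j => (g j).coeff 0 / 2, fun j => ?_, ?_⟩
    · have e3 := hzint j
      rw [e2 j] at e3
      exact (isIntegral_algebraMap_iff (algebraMap F ℂ).injective).mp e3
    · apply (algebraMap F ℂ).injective
      rw [← hsum, map_sum]
      refine Finset.sum_congr rfl fun j _ => ?_
      rw [e2 j, map_pow]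
  · -- the norm inequality
    set n : Fin r → F[X] := fun j => C (1 / 4 : F) * (g j ^ 2 - (C y - X ^ 2) * hh j ^ 2) with hn
    have hnw : ∀ j, aeval w (n j) = ν j := by
      intro j
      have e3 : z j = (aeval w (g j) + aeval w (hh j) * u) / 2 := by
        rw [← hzgh j]; ring
      rw [hν j, hag j, e3]
      simp only [hn, map_mul, map_sub, map_pow, aeval_C, aeval_X]
      rw [← hu, map_div₀, map_one, map_ofNat]
      ring
    have hTn : ∀ j, (T j).map (algebraMap (𝓞 F) F) = C (D : F) * RF' * n j ^ N := by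
      intro j
      rw [← sub_eq_zero]
      apply h.vanish
      · refine lt_of_le_of_lt (natDegree_sub_le _ _) (max_lt ?_ ?_)
        · refine lt_of_le_of_lt natDegree_map_le (lt_of_le_of_lt (hT j) (by omega))
        · refine lt_of_le_of_lt natDegree_mul_le ?_
          have e1 : (C (D : F) * RF').natDegree ≤ k - 1 := by
            refine (natDegree_C_mul_le _ _).trans ?_
            rw [hdR']
          have e2 : (n j ^ N).natDegree ≤ N * (2 * K) :=
            natDegree_pow_le.trans (Nat.mul_le_mul_left N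
              (norm_poly_top y (g j) (hh j) K hK1 (hgK j) (hhK j)).1)
          have e3 : N * (2 * K) ≤ 2 * (Dg + 1) * N := by
            calc N * (2 * K) ≤ N * (2 * (Dg + 1)) :=
                  Nat.mul_le_mul_left N (Nat.mul_le_mul_left 2 hKDg)
              _ = 2 * (Dg + 1) * N := by ring
          omega
      · rw [map_sub, map_mul, map_mul, map_pow, aeval_C, map_natCast, hnw, hTe j]
        ring
    set κ : Fin r → F := fun j => ((g j).coeff K ^ 2 + (hh j).coeff (K - 1) ^ 2) / 4 with hκ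
    have hκint : ∀ j, IsIntegral ℤ (((D * k : ℕ) : F) * κ j ^ N) := by
      intro j
      have e1 := congrArg (fun p : F[X] => p.coeff ((k - 1) + N * (2 * K))) (hTn j)
      beta_reduce at e1
      rw [coeff_map, coeff_mul_add_eq_of_natDegree_le, coeff_pow_of_natDegree_le
        (norm_poly_top y (g j) (hh j) K hK1 (hgK j) (hhK j)).1,
        (norm_poly_top y (g j) (hh j) K hK1 (hgK j) (hhK j)).2, coeff_C_mul] at e1
      · obtain ⟨e, he⟩ := h.unit
        have e2 : RF'.coeff (k - 1) = (k : F) * algebraMap (𝓞 F) F R.leadingCoeff := by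
          rw [hRF', coeff_derivative, hRF, coeff_map]
          have : k - 1 + 1 = k := by omega
          rw [this, leadingCoeff, h.deg]
          have e5 : ((k - 1 : ℕ) : F) + 1 = (k : F) := by
            have : ((k - 1 + 1 : ℕ) : F) = (k : F) := by congr 1
            rw [← this]; push_cast; ring
          rw [e5]; ring
        have e3 : ((D * k : ℕ) : F) * κ j ^ N =
            algebraMap (𝓞 F) F (↑(e⁻¹) : 𝓞 F) *
              algebraMap (𝓞 F) F ((T j).coeff (k - 1 + N * (2 * K))) := by
          rw [e1, e2, ← he]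
          have e4 : algebraMap (𝓞 F) F (↑(e⁻¹) : 𝓞 F) * algebraMap (𝓞 F) F (e : 𝓞 F) = 1 := by
            rw [← map_mul, Units.inv_mul, map_one]
          push_cast
          simp only [hκ]
          linear_combination (-((D : F) * k * (((g j).coeff K ^ 2 +
            (hh j).coeff (K - 1) ^ 2) / 4) ^ N)) * e4
        rw [e3]
        exact (RingOfIntegers.isIntegral_coe _).mul (RingOfIntegers.isIntegral_coe _)
      · refine (natDegree_C_mul_le _ _).trans ?_
        rw [hdR']
      · exact natDegree_pow_le.trans (Nat.mul_le_mul_left N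
              (norm_poly_top y (g j) (hh j) K hK1 (hgK j) (hhK j)).1)
    have hκne : ∀ j, (g j).coeff K ^ 2 + (hh j).coeff (K - 1) ^ 2 ≠ 0 → κ j ≠ 0 := by
      intro j hj0
      exact div_ne_zero hj0 (by norm_num)
    have hκnn : ∀ (φ : F →+* ℝ) (j), 0 ≤ φ (κ j) := by
      intro φ j
      simp only [hκ, map_div₀, map_add, map_pow, map_ofNat]
      positivity
    have hmain := arith_lemma h.tr x y hx hypos h4 (κ j1) (κ j2) (D * k) N K hK1 (hκint j1)
      (hκne j1 hκ1) (Nat.mul_ne_zero h.hD.ne' (by omega)) (hκint j2) (hκne j2 hκ2)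
      (fun φ => hκnn φ j1) (fun φ => hκnn φ j2) (by
        intro φ
        have hch := cheb_vec hK1 (fun j => (g j).map φ)
          (fun j => by rw [natDegree_map]; exact hgK j) (φ x) (φ y) (hx φ) (hypos φ) (by
            intro W hW
            have e1 := congrArg (fun p : F[X] => (p.map φ).eval W) hgg
            simp only [Polynomial.map_add, Polynomial.map_mul, Polynomial.map_sum,
              Polynomial.map_pow, Polynomial.map_sub, map_C, map_X, eval_add, eval_mul, eval_C,
              eval_sub, eval_pow, eval_X, eval_finsetSum, Polynomial.map_ofNat, eval_ofNat] at e1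
            have e2 : 0 ≤ (φ y - W ^ 2) * ∑ j, ((hh j).map φ).eval W ^ 2 :=
              mul_nonneg (by linarith) (Finset.sum_nonneg fun _ _ => sq_nonneg _)
            linarith)
        simp only [coeff_map] at hch
        have hAB' := congrArg φ hAB
        rw [map_sum, map_sum] at hAB'
        simp only [map_pow] at hAB'
        have e3 : φ (κ j1) + φ (κ j2) ≤ ∑ j, φ (κ j) := by
          rw [← Finset.sum_pair (f := fun j => φ (κ j)) hj]
          exact Finset.sum_le_sum_of_subset_of_nonneg (Finset.subset_univ _)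
            (fun j _ _ => hκnn φ j)
        have e4 : ∑ j, φ (κ j) = (∑ j, φ ((g j).coeff K) ^ 2) / 2 := by
          simp only [hκ, map_div₀, map_add, map_pow, map_ofNat]
          rw [← Finset.sum_div, Finset.sum_add_distrib, ← hAB']
          ring
        have e5 := hκnn φ j1
        have e6 := hκnn φ j2
        have e7 : 0 ≤ (φ y / 4) ^ K := pow_nonneg (by linarith [hypos φ]) K
        have e8 : (φ y / 4) ^ K * (2 * (φ (κ j1) + φ (κ j2))) ≤ φ x := by
          refine le_trans (mul_le_mul_of_nonneg_left ?_ e7) hch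
          linarith
        have e9 : 0 ≤ (φ y / 4) ^ K * (2 * (φ (κ j1) + φ (κ j2))) := by positivity
        have e10 := pow_le_pow_left₀ e9 e8 2
        refine le_trans ?_ e10
        have e11 : (φ y / 4) ^ (2 * K) = ((φ y / 4) ^ K) ^ 2 := by rw [← pow_mul, mul_comm]
        rw [e11]
        have e12 : 0 ≤ ((φ y / 4) ^ K) ^ 2 := sq_nonneg _
        nlinarith [mul_nonneg e12 (sq_nonneg (φ (κ j1) - φ (κ j2)))])
    linarith

end Dat

end Pool.Agent.TH843.PY
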