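import Pool.Agent.TH843.PY.Core8
import Pool.Agent.TH843.PY.Core9

/-!
# The length of `x` is preserved
-/

set_option autoImplicit false
open Polynomial NumberField IntermediateField

namespace Pool.Agent.TH843.PY

/-- If `u` is not in `M`, then the cross term vanishes. -/
theorem cross_term {M : Type} [Field M] [CharZero M] [Algebra M ℂ] (c x : M) (u : ℂ)
    (hcu : u ^ 2 = algebraMap M ℂ c) (hu : ∀ m : M, algebraMap M ℂ m ≠ u) {r : ℕ}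
    (a b : Fin r → M) (z : Fin r → ℂ)
    (h1 : ∀ j, 2 * u * z j = algebraMap M ℂ (b j) + algebraMap M ℂ (a j) * u)
    (h2 : ∑ j, z j ^ 2 = algebraMap M ℂ x) : ∑ j, a j * b j = 0 := by
  by_contra hS
  set S := ∑ j, a j * b j with hSd
  set T : M := 4 * c * x - ∑ j, b j ^ 2 - c * ∑ j, a j ^ 2 with hT
  apply hu (T / (2 * S))
  have hS' : algebraMap M ℂ S ≠ 0 := by rw [Ne, _root_.map_eq_zero]; exact hS
  have e1 : 4 * u ^ 2 * algebraMap M ℂ x =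
      ∑ j, (algebraMap M ℂ (b j) + algebraMap M ℂ (a j) * u) ^ 2 := by
    rw [← h2, Finset.mul_sum]
    refine Finset.sum_congr rfl fun j _ => ?_
    rw [← h1]; ring
  have e2 : ∑ j, (algebraMap M ℂ (b j) + algebraMap M ℂ (a j) * u) ^ 2 =
      ∑ j, (algebraMap M ℂ (b j)) ^ 2 + u ^ 2 * ∑ j, (algebraMap M ℂ (a j)) ^ 2 +
        2 * u * ∑ j, algebraMap M ℂ (a j) * algebraMap M ℂ (b j) := by
    rw [Finset.mul_sum, Finset.mul_sum, ← Finset.sum_add_distrib, ← Finset.sum_add_distrib]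
    refine Finset.sum_congr rfl fun j _ => ?_
    ring
  have e3 : algebraMap M ℂ S = ∑ j, algebraMap M ℂ (a j) * algebraMap M ℂ (b j) := by
    rw [hSd, map_sum]
    refine Finset.sum_congr rfl fun j _ => ?_
    rw [map_mul]
  have e4 : algebraMap M ℂ T = 4 * u ^ 2 * algebraMap M ℂ x - ∑ j, (algebraMap M ℂ (b j)) ^ 2 -
      u ^ 2 * ∑ j, (algebraMap M ℂ (a j)) ^ 2 := by
    rw [hT, hcu]
    simp only [map_sub, map_mul, map_sum, map_pow, map_ofNat]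
  rw [map_div₀, map_mul, map_ofNat, e4, div_eq_iff (mul_ne_zero two_ne_zero hS'), e3]
  rw [e1, e2]
  ring

namespace Dat

variable {F : Type} [Field F] [NumberField F] [Algebra F ℂ] {y : F} {q k D : ℕ} {P : ℤ[X]}
    {R : (𝓞 F)[X]} {v w : ℂ}

/-- The length of `x` is preserved. -/
theorem length (h : Dat y q k D P R v w) (x : F) {r : ℕ}
    (hnot : ¬ ∃ f : Fin r → F, (∀ i, IsIntegral ℤ (f i)) ∧ x = ∑ i, f i ^ 2)
    (hypos : ∀ φ : F →+* ℝ, 0 < φ y)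
    (h4 : (4 : ℝ) ^ (Module.finrank ℚ F) < ∏ φ : F →+* ℝ, φ y) (N : ℕ) (hN1 : 1 ≤ N)
    (hN : ((D * k : ℕ) : ℝ) ^ (Module.finrank ℚ F) * |∏ φ : F →+* ℝ, φ x| ^ N <
      (∏ φ : F →+* ℝ, φ y) ^ N)
    (X0 Y : ℝ) (hX0 : 1 ≤ X0) (hX : ∀ φ : F →+* ℂ, ‖φ x‖ ≤ X0)
    (hY1 : 1 ≤ Y) (hY : ∀ φ : F →+* ℂ, ‖φ y‖ ≤ Y) (L : ℕ)
    (hL : 2 * D * (k * ((3 * X0 ^ 2 * Y) ^ N * Y ^ k)) < 2 ^ (L + 1))
    (hq : 2 * (k * L + (k - 1)) + 2 * k + 4 + 2 * ((k * L + (k - 1)) + 1) * N < q)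
    (u : ℂ) (hu : u ^ 2 = algebraMap F ℂ y - w ^ 2) :
    ¬ ∃ z : Fin r → F⟮v⟯⟮w⟯⟮u⟯, (∀ j, IsIntegral ℤ (z j)) ∧
      algebraMap F ℂ x = ∑ j, (z j : ℂ) ^ 2 := by
  rintro ⟨z, hzint, hsum⟩
  have hx0 : x ≠ 0 := by
    rintro rfl
    apply hnot
    exact ⟨fun _ => 0, fun _ => isIntegral_zero, by simp⟩
  set B := (3 * X0 ^ 2 * Y) ^ N with hB
  have hX2 : X0 ≤ X0 ^ 2 := by nlinarith
  have hb1 : 1 ≤ 3 * X0 ^ 2 * Y := by nlinarith
  have hBge : 3 * X0 ^ 2 * Y ≤ B := le_self_pow₀ hb1 (by omega)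
  have hmono : ∀ b : ℝ, b ≤ B → 2 * D * (k * (b * Y ^ k)) < 2 ^ (L + 1) := by
    intro b hb
    refine lt_of_le_of_lt ?_ hL
    gcongr
  have hunot : u ∉ F⟮v⟯⟮w⟯ := by
    apply h.notmem Y hY1 hY L (hmono Y ?_) (by omega) u hu
    refine le_trans ?_ hBge
    nlinarith
  -- the equation in E
  have hsumE : ∑ j, z j ^ 2 =
      algebraMap F⟮v⟯⟮w⟯ F⟮v⟯⟮w⟯⟮u⟯ (algebraMap F F⟮v⟯⟮w⟯ x) := by
    apply (algebraMap F⟮v⟯⟮w⟯⟮u⟯ ℂ).injective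
    rw [map_sum]
    simp_rw [map_pow]
    exact hsum.symm
  have hreal : ∀ ρ : F⟮v⟯⟮w⟯⟮u⟯ →+* ℂ, ∀ j, (ρ (z j)).re ^ 2 ≤
      (ρ (algebraMap F⟮v⟯⟮w⟯ F⟮v⟯⟮w⟯⟮u⟯ (algebraMap F F⟮v⟯⟮w⟯ x))).re := by
    intro ρ j
    rw [← hsumE, map_sum, Complex.re_sum]
    have e1 : ∀ i, (ρ (z i ^ 2)).re = (ρ (z i)).re ^ 2 := by
      intro i
      rw [map_pow, pow_two, Complex.mul_re, (h.embed_E Y hY1 hY u hu ρ).1 (z i)]
      ring
    simp_rw [e1]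
    exact Finset.single_le_sum (f := fun i => (ρ (z i)).re ^ 2) (fun i _ => sq_nonneg _)
      (Finset.mem_univ j)
  have hzX : ∀ j, ∀ ρ : F⟮v⟯⟮w⟯⟮u⟯ →+* ℂ, ‖ρ (z j)‖ ≤ X0 := by
    intro j ρ
    have e1 := hreal ρ j
    have e2 : ρ (z j) = (((ρ (z j)).re : ℝ) : ℂ) :=
      Complex.ext (by simp) (by simp [(h.embed_E Y hY1 hY u hu ρ).1 (z j)])
    rw [e2, Complex.norm_real, Real.norm_eq_abs]
    apply abs_le_of_sq_le_sq _ (by linarith)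
    refine e1.trans ((Complex.re_le_norm _).trans ?_)
    exact (hX ((ρ.comp (algebraMap F⟮v⟯⟮w⟯ F⟮v⟯⟮w⟯⟮u⟯)).comp (algebraMap F F⟮v⟯⟮w⟯))).trans hX2
  -- x is totally positive
  have hxpos : ∀ φ : F →+* ℝ, 0 < φ x := by
    intro φ
    have := adjoin.finiteDimensional (h.vint.tower_top (A := F))
    have := adjoin.finiteDimensional (h.wint.tower_top (A := F⟮v⟯))
    have := adjoin.finiteDimensional ((h.uint u hu).tower_top (A := F⟮v⟯⟮w⟯))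
    obtain ⟨ρ1, hρ1⟩ := exists_extend (K := F) (E := F⟮v⟯) (Complex.ofRealHom.comp φ)
    obtain ⟨ρ2, hρ2⟩ := exists_extend (K := F⟮v⟯) (E := F⟮v⟯⟮w⟯) ρ1
    obtain ⟨ρ3, hρ3⟩ := exists_extend (K := F⟮v⟯⟮w⟯) (E := F⟮v⟯⟮w⟯⟮u⟯) ρ2
    have e1 : ρ3 (algebraMap F⟮v⟯⟮w⟯ F⟮v⟯⟮w⟯⟮u⟯ (algebraMap F F⟮v⟯⟮w⟯ x)) = (φ x : ℂ) := by
      rw [hρ3]
      have : algebraMap F F⟮v⟯⟮w⟯ x = algebraMap F⟮v⟯ F⟮v⟯⟮w⟯ (algebraMap F F⟮v⟯ x) := rfl
      rw [this, hρ2, hρ1]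
      rfl
    have e2 : 0 ≤ φ x := by
      have e3 := congrArg (fun t => (ρ3 t).re) hsumE
      simp only [map_sum] at e3
      rw [e1, Complex.ofReal_re, Complex.re_sum] at e3
      rw [← e3]
      apply Finset.sum_nonneg
      intro i _
      rw [map_pow, pow_two, Complex.mul_re, (h.embed_E Y hY1 hY u hu ρ3).1 (z i)]
      nlinarith [mul_self_nonneg (ρ3 (z i)).re]
    rcases e2.lt_or_eq with e3 | e3
    · exact e3
    · exact absurd ((_root_.map_eq_zero φ).mp e3.symm) hx0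
  -- coordinates
  have hquad := fun j => h.quad Y hY1 hY u hu (z j) (hzint j) X0 hX0 (hzX j)
  choose a b ν h1 ha hb hν haB hbB hνe hνB using hquad
  have hcoe : ∀ t : F⟮v⟯⟮w⟯, algebraMap F⟮v⟯⟮w⟯ ℂ t = (t : ℂ) := fun _ => rfl
  have hab := cross_term (cM y v w) (algebraMap F F⟮v⟯⟮w⟯ x) u
    (by rw [hu]; exact (cM_coe y v w).symm)
    (fun m hm => hunot (by rw [← hm]; exact m.2)) a b (fun j => (z j : ℂ)) h1 hsum.symm
  obtain ⟨G, hG⟩ : ∃ G : Fin r → (𝓞 F)[X], ∀ j, (G j).natDegree ≤ k * L + (k - 1) ∧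
      aeval w ((G j).map (algebraMap (𝓞 F) F)) =
        D * aeval w (derivative (R.map (algebraMap (𝓞 F) F))) * (a j : ℂ) := by
    have := fun j => h.ctrl (a j) (ha j) (2 * X0) Y (haB j) hY1 hY L (hmono _ (by nlinarith))
    exact ⟨fun j => (this j).choose, fun j => (this j).choose_spec⟩
  obtain ⟨H, hH⟩ : ∃ G : Fin r → (𝓞 F)[X], ∀ j, (G j).natDegree ≤ k * L + (k - 1) ∧
      aeval w ((G j).map (algebraMap (𝓞 F) F)) =
        D * aeval w (derivative (R.map (algebraMap (𝓞 F) F))) * (b j : ℂ) := by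
    have := fun j => h.ctrl (b j) (hb j) (2 * (X0 * Y)) Y (hbB j) hY1 hY L (hmono _ (by
      refine le_trans ?_ hBge
      nlinarith [mul_nonneg (by linarith : (0 : ℝ) ≤ X0) (by linarith : (0 : ℝ) ≤ Y)]))
    exact ⟨fun j => (this j).choose, fun j => (this j).choose_spec⟩
  obtain ⟨T, hT⟩ : ∃ G : Fin r → (𝓞 F)[X], ∀ j, (G j).natDegree ≤ k * L + (k - 1) ∧
      aeval w ((G j).map (algebraMap (𝓞 F) F)) =
        D * aeval w (derivative (R.map (algebraMap (𝓞 F) F))) * ((ν j ^ N : F⟮v⟯⟮w⟯) : ℂ) := by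
    have := fun j => h.ctrl (ν j ^ N) ((hν j).pow N) ((3 * X0 ^ 2) ^ N) Y (by
        intro ρ
        rw [map_pow, norm_pow]
        exact pow_le_pow_left₀ (norm_nonneg _) (hνB j ρ) N) hY1 hY L (hmono _ (by
      rw [hB]
      apply pow_le_pow_left₀ (by positivity)
      nlinarith [sq_nonneg X0]))
    exact ⟨fun j => (this j).choose, fun j => (this j).choose_spec⟩
  have hu0 : u ≠ 0 := by
    intro h0
    apply hunot
    rw [h0]
    exact zero_mem _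
  rw [abs_of_pos (Finset.prod_pos fun φ _ => hxpos φ)] at hN
  refine h.final x hnot hxpos hypos h4 N hN u hu hu0 (fun j => (a j : ℂ)) (fun j => (b j : ℂ))
    (fun j => (ν j : ℂ)) (fun j => (z j : ℂ)) ?_ hsum.symm h1 ?_ hνe (k * L + (k - 1)) G H T
    (fun j => (hG j).1) (fun j => (hH j).1) (fun j => (hT j).1) (fun j => (hG j).2)
    (fun j => (hH j).2) (fun j => ?_) hq
  · intro j
    exact (hzint j).map (algebraMap F⟮v⟯⟮w⟯⟮u⟯ ℂ).toIntAlgHom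
  · have := congrArg (algebraMap F⟮v⟯⟮w⟯ ℂ) hab
    rw [map_sum, map_zero] at this
    simp only [map_mul] at this
    exact this
  · rw [(hT j).2]
    push_cast
    rfl

end Dat

end Pool.Agent.TH843.PY
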