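import Pool.Agent.TH843.PY.Core10

/-!
# The main extension lemma
-/

set_option autoImplicit false
open Polynomial NumberField IntermediateField

namespace Pool.Agent.TH843.PY

theorem exists_N (m : ℝ) (hm : 0 < m) (a b : ℝ) (ha : 0 ≤ a) (hab : a < b) :
    ∃ N : ℕ, 1 ≤ N ∧ m * a ^ N < b ^ N := by
  have hb : 0 < b := lt_of_le_of_lt ha hab
  obtain ⟨n, hn⟩ := exists_pow_lt_of_lt_one (x := 1 / m) (by positivity) ((div_lt_one hb).mpr hab)
  refine ⟨n + 1, by omega, ?_⟩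
  have h1 : (a / b) ^ (n + 1) < 1 / m := by
    refine lt_of_le_of_lt ?_ hn
    rw [pow_succ]
    apply mul_le_of_le_one_right (by positivity)
    exact (div_le_one hb).mpr hab.le
  rw [div_pow, div_lt_div_iff₀ (by positivity) hm, one_mul] at h1
  linarith

theorem exists_L (a : ℝ) : ∃ L : ℕ, a < 2 ^ (L + 1) := by
  obtain ⟨n, hn⟩ := pow_unbounded_of_one_lt a (by norm_num : (1 : ℝ) < 2)
  refine ⟨n, hn.trans_le ?_⟩
  exact pow_le_pow_right₀ (by norm_num) (Nat.le_succ n)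

theorem stmML_of (hA : StmA) (hB : StmB) : StmML := by
  intro F hfd hTRF x y r hx hy hypos h4 hxy hnot
  have hNF : NumberField F := ⟨⟩
  have hTR : ∀ φ : F →+* ℂ, ∀ x : F, (φ x).im = 0 := hTRF
  have hypos' : ∀ φ : F →+* ℝ, 0 < φ y := by
    intro φ
    have := hypos (Complex.ofRealHom.comp φ)
    simpa using this
  set d := Module.finrank ℚ F with hd
  have hNy0 : 0 < ∏ φ : F →+* ℝ, φ y := Finset.prod_pos fun φ _ => hypos' φ
  have hNy : (∏ φ : F →+* ℝ, φ y) = ((|Algebra.norm ℚ y| : ℚ) : ℝ) := by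
    rw [Rat.cast_abs, ← prod_real hTR, abs_of_pos hNy0]
  have hNx : |∏ φ : F →+* ℝ, φ x| = ((|Algebra.norm ℚ x| : ℚ) : ℝ) := by
    rw [Rat.cast_abs, ← prod_real hTR]
  have h4' : (4 : ℝ) ^ d < ∏ φ : F →+* ℝ, φ y := by
    rw [hNy]; exact_mod_cast h4
  have hxy' : |∏ φ : F →+* ℝ, φ x| < ∏ φ : F →+* ℝ, φ y := by
    rw [hNy, hNx]; exact_mod_cast hxy
  obtain ⟨R, hRu, hk, hroots⟩ := hB F hTR ⟨y, hy⟩ hypos' h4'
  obtain ⟨D, hD, hdual⟩ := exists_dual F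
  set k := R.natDegree with hkd
  obtain ⟨N, hN1, hN⟩ := exists_N (((D * k : ℕ) : ℝ) ^ d) (by
    have : 0 < D * k := Nat.mul_pos hD hk
    positivity) _ _ (abs_nonneg (∏ φ : F →+* ℝ, φ x)) hxy'
  set X0 : ℝ := 1 + ∑ φ : F →+* ℂ, ‖φ x‖ with hX0
  set Y : ℝ := 1 + ∑ φ : F →+* ℂ, ‖φ y‖ with hY
  have hbd : ∀ (t : F) (φ : F →+* ℂ), ‖φ t‖ ≤ 1 + ∑ φ : F →+* ℂ, ‖φ t‖ := by
    intro t φ
    have := Finset.single_le_sum (f := fun φ : F →+* ℂ => ‖φ t‖) (fun _ _ => norm_nonneg _)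
      (Finset.mem_univ φ)
    linarith
  have hb1 : ∀ t : F, 1 ≤ 1 + ∑ φ : F →+* ℂ, ‖φ t‖ := by
    intro t
    have : 0 ≤ ∑ φ : F →+* ℂ, ‖φ t‖ := Finset.sum_nonneg fun _ _ => norm_nonneg _
    linarith
  obtain ⟨L, hL⟩ := exists_L (2 * D * (k * ((3 * X0 ^ 2 * Y) ^ N * Y ^ k)))
  obtain ⟨q, hq, hqp, P, hP⟩ := hA (d + (2 * (k * L + (k - 1)) + 2 * k + 4 +
    2 * ((k * L + (k - 1)) + 1) * N))
  obtain ⟨v, hv⟩ : ∃ v : ℂ, aeval v P = 0 := by
    apply IsAlgClosed.exists_aeval_eq_zero_of_injective ℂ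
      (RingHom.injective_int (algebraMap ℤ ℂ))
    rw [degree_eq_natDegree hP.monic.ne_zero, hP.deg]
    exact_mod_cast hqp.ne_zero
  obtain ⟨w, hw⟩ : ∃ w : ℂ, aeval w (R.map (algebraMap (𝓞 F) F)) = v := by
    have hdeg : (R.map (algebraMap (𝓞 F) F)).natDegree = k := by
      rw [natDegree_map_eq_of_injective Dat.Rinj]
    obtain ⟨w, hw⟩ := IsAlgClosed.exists_root
      ((R.map (algebraMap (𝓞 F) F)).map (algebraMap F ℂ) - C v) (by
        intro h0
        have h1 : ((R.map (algebraMap (𝓞 F) F)).map (algebraMap F ℂ) - C v).natDegree = k := by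
          rw [natDegree_sub_C, natDegree_map, hdeg]
        have h2 := natDegree_eq_zero_iff_degree_le_zero.mpr h0.le
        omega)
    refine ⟨w, ?_⟩
    rw [IsRoot, eval_sub, eval_C, sub_eq_zero, eval_map] at hw
    rw [aeval_def, hw]
  obtain ⟨u, hu⟩ := IsAlgClosed.exists_pow_nat_eq (algebraMap F ℂ y - w ^ 2) (n := 2) (by norm_num)
  have h : Dat y q k D P R v w :=
    { tr := hTR, hD := hD, dual := hdual, good := hP, prime := hqp, hd := by omega, hv := hv,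
      unit := hRu, deg := rfl, hk := hk, hw := hw, roots := hroots, hy := hy }
  have hnot' : ¬ ∃ f : Fin r → F, (∀ i, IsIntegral ℤ (f i)) ∧ x = ∑ i, f i ^ 2 := by
    rintro ⟨f, hf, hfx⟩
    apply hnot
    refine ⟨fun i => (f i : ℂ), fun i => ⟨(f i).2, (hf i).map (algebraMap F ℂ).toIntAlgHom⟩, ?_⟩
    rw [hfx]
    push_cast
    rfl
  have hlen := h.length x hnot' hypos' h4' N hN1 hN X0 Y (hb1 x) (hbd x) (hb1 y) (hbd y) L hL
    (by omega) u hu
  have huint := h.uint u hu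
  -- the field
  set E := F⟮v⟯⟮w⟯⟮u⟯ with hE
  have hf1 := adjoin.finiteDimensional (h.vint.tower_top (A := F))
  have hf2 := adjoin.finiteDimensional (h.wint.tower_top (A := F⟮v⟯))
  have hf3 := adjoin.finiteDimensional (huint.tower_top (A := F⟮v⟯⟮w⟯))
  have hwE : w ∈ E := E.algebraMap_mem (AdjoinSimple.gen F⟮v⟯ w)
  have huE : u ∈ E := mem_adjoin_simple_self F⟮v⟯⟮w⟯ u
  have hFE : ∀ a : F, (a : ℂ) ∈ E := by
    intro a
    have : (a : ℂ) = algebraMap F⟮v⟯⟮w⟯ ℂ (algebraMap F F⟮v⟯⟮w⟯ a) := rfl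
    rw [this]
    exact E.algebraMap_mem _
  refine ⟨E.restrictScalars ℚ, ?_, ?_, ?_, ?_, ?_⟩
  · rw [lt_iff_le_and_ne]
    refine ⟨fun a ha => hFE ⟨a, ha⟩, ?_⟩
    intro heq
    have hwF : w ∈ F := by
      rw [heq]; exact hwE
    have h1 := h.vanish (X - C (⟨w, hwF⟩ : F)) (by
      rw [natDegree_X_sub_C]; omega) (by
      rw [map_sub, aeval_X, aeval_C]
      exact sub_self w)
    exact X_sub_C_ne_zero _ h1
  · have e1 : FiniteDimensional ℚ F⟮v⟯ := Module.Finite.trans F _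
    have e2 : FiniteDimensional ℚ F⟮v⟯⟮w⟯ := Module.Finite.trans F⟮v⟯ _
    have e3 : FiniteDimensional ℚ E := Module.Finite.trans F⟮v⟯⟮w⟯ _
    exact e3
  · intro φ a
    let ι : E →+* E.restrictScalars ℚ :=
      { toFun := fun t => ⟨t.1, t.2⟩
        map_one' := rfl
        map_mul' := fun _ _ => rfl
        map_zero' := rfl
        map_add' := fun _ _ => rfl }
    exact (h.embed_E Y (hb1 y) (hbd y) u hu (φ.comp ι)).1 ⟨a.1, a.2⟩
  · refine ⟨![w, u], ?_, ?_⟩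
    · intro i
      fin_cases i
      · exact ⟨hwE, h.wint⟩
      · exact ⟨huE, huint⟩
    · rw [Fin.sum_univ_two]
      simp only [Matrix.cons_val_zero, Matrix.cons_val_one]
      rw [hu]
      show (y : ℂ) = w ^ 2 + ((y : ℂ) - w ^ 2)
      ring
  · rintro ⟨f, hf, hfx⟩
    apply hlen
    refine ⟨fun i => ⟨f i, (hf i).1⟩, fun i => ?_, ?_⟩
    · exact (isIntegral_algebraMap_iff (algebraMap E ℂ).injective).mp (hf i).2
    · exact hfx

end Pool.Agent.TH843.PY
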