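import Pool.Agent.TH843.PY.Stm
import Pool.Agent.TH843.PY.Core1

/-!
# The first extension `F(v)`
-/

set_option autoImplicit false
open Polynomial NumberField IntermediateField

namespace Pool.Agent.TH843.PY

theorem eval₂_map_int {F : Type*} [Field F] (φ : F →+* ℂ) (P : ℤ[X]) (v : ℂ) :
    (P.map (Int.castRingHom F)).eval₂ φ v = aeval v P := by
  rw [eval₂_map, aeval_def]
  congr 1
  exact RingHom.ext_int _ _

theorem minpoly_lift {F : Type*} [Field F] [NumberField F] [Algebra F ℂ] {q : ℕ} {P : ℤ[X]}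
    (hP : Good q P) (hq : q.Prime) (hd : Module.finrank ℚ F < q) (v : ℂ) (hv : aeval v P = 0) :
    minpoly F v = P.map (Int.castRingHom F) := by
  have hmon : (P.map (Int.castRingHom F)).Monic := hP.monic.map _
  have hev : aeval v (P.map (Int.castRingHom F)) = 0 := by
    rw [aeval_def, eval₂_map_int, hv]
  have hint : IsIntegral F v := ⟨P.map (Int.castRingHom F), hmon, hev⟩
  have hdvd := minpoly.dvd F v hev
  have hQ : minpoly ℚ v = P.map (Int.castRingHom ℚ) := by
    symm
    apply minpoly.eq_of_irreducible_of_monic hP.irr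
    · rw [aeval_def, eval₂_map_int, hv]
    · exact hP.monic.map _
  have := adjoin.finiteDimensional hint
  have hfd : FiniteDimensional ℚ F⟮v⟯ := Module.Finite.trans F _
  have h1 : (minpoly ℚ (AdjoinSimple.gen F v)).natDegree ∣ Module.finrank ℚ F⟮v⟯ :=
    minpoly.degree_dvd (IsIntegral.of_finite ℚ _)
  have h2 : minpoly ℚ (AdjoinSimple.gen F v) = minpoly ℚ v := by
    rw [← minpoly.algebraMap_eq (algebraMap F⟮v⟯ ℂ).injective, AdjoinSimple.algebraMap_gen]
  have h3 : Module.finrank ℚ F * Module.finrank F F⟮v⟯ = Module.finrank ℚ F⟮v⟯ :=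
    Module.finrank_mul_finrank ℚ F F⟮v⟯
  rw [h2, hQ, hP.monic.natDegree_map, hP.deg, ← h3] at h1
  have h4 : q ∣ Module.finrank F F⟮v⟯ := by
    rcases hq.dvd_mul.mp h1 with h | h
    · exact absurd (Nat.le_of_dvd Module.finrank_pos h) (by omega)
    · exact h
  rw [adjoin.finrank hint] at h4
  have h5 : q ≤ (minpoly F v).natDegree :=
    Nat.le_of_dvd (minpoly.natDegree_pos hint) h4
  refine (eq_of_monic_of_dvd_of_natDegree_le (minpoly.monic hint) hmon hdvd ?_).symm
  rw [hP.monic.natDegree_map, hP.deg]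
  exact h5

/-- A common denominator for the trace dual of the ring of integers. -/
theorem exists_dual (F : Type) [Field F] [NumberField F] : ∃ D : ℕ, 0 < D ∧
    ∀ c : F, (∀ ω : 𝓞 F, IsIntegral ℤ (Algebra.trace ℚ F (c * ω))) →
      IsIntegral ℤ ((D : F) * c) := by
  classical
  let b := integralBasis F
  let d := (Algebra.traceForm ℚ F).dualBasis (traceForm_nondegenerate ℚ F) b
  have halg : Algebra.IsAlgebraic ℤ F := (IsFractionRing.comap_isAlgebraic_iff (A := ℤ) (K := ℚ) (C := F)).mpr inferInstance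
  obtain ⟨m, hm, hmi⟩ := Algebra.IsAlgebraic.exists_integral_multiples ℤ
    (Finset.univ.image d)
  refine ⟨m.natAbs, Int.natAbs_pos.mpr hm, fun c hc => ?_⟩
  have h1 : IsIntegral ℤ ((m : F) * c) := by
    rw [← d.sum_repr c, Finset.mul_sum]
    refine IsIntegral.sum _ fun i _ => ?_
    have h2 : d.repr c i = Algebra.trace ℚ F (c * b i) := by
      rw [LinearMap.BilinForm.dualBasis_repr_apply, Algebra.traceForm_apply]
    have h3 : (m : F) * (d.repr c i • d i) = algebraMap ℚ F (d.repr c i) * (m • d i) := by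
      rw [Algebra.smul_def, zsmul_eq_mul]; ring
    rw [h3]
    refine IsIntegral.mul ?_ (hmi _ (Finset.mem_image_of_mem _ (Finset.mem_univ _)))
    rw [h2]
    have h4 := hc (RingOfIntegers.basis F i)
    have h5 : ((RingOfIntegers.basis F i : 𝓞 F) : F) = b i := (integralBasis_apply F i).symm
    rw [h5] at h4
    exact h4.map (algebraMap ℚ F).toIntAlgHom
  have h6 : ((m.natAbs : ℕ) : F) = m ∨ ((m.natAbs : ℕ) : F) = - m := by
    rcases Int.natAbs_eq m with h | h
    · left
      conv_rhs => rw [h]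
      simp
    · right
      conv_rhs => rw [h]
      simp
  rcases h6 with h | h
  · rw [h]; exact h1
  · rw [h, neg_mul]; exact h1.neg


theorem exists_one_le_embed (F : Type) [Field F] [NumberField F] (c : 𝓞 F) (hc : c ≠ 0) :
    ∃ φ : F →+* ℂ, 1 ≤ ‖φ c‖ := by
  by_contra hcon
  push Not at hcon
  have h1 : algebraMap ℚ ℂ (Algebra.norm ℚ (c : F)) = ∏ σ : F →ₐ[ℚ] ℂ, σ c :=
    Algebra.norm_eq_prod_embeddings ℚ ℂ (c : F)
  have h2 : ‖∏ σ : F →ₐ[ℚ] ℂ, σ c‖ < 1 := by
    rw [norm_prod]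
    have hne : (Finset.univ : Finset (F →ₐ[ℚ] ℂ)).Nonempty :=
      ⟨IsAlgClosed.lift (R := ℚ) (S := F) (M := ℂ), Finset.mem_univ _⟩
    calc ∏ σ : F →ₐ[ℚ] ℂ, ‖σ c‖ < ∏ σ : F →ₐ[ℚ] ℂ, (1 : ℝ) := by
          apply Finset.prod_lt_prod_of_nonempty _ _ hne
          · intro σ _
            rw [norm_pos_iff, _root_.map_ne_zero]
            exact RingOfIntegers.coe_ne_zero_iff.mpr hc
          · intro σ _
            exact hcon σ.toRingHom
      _ = 1 := by simp
  obtain ⟨n, hn⟩ : ∃ n : ℤ, (n : ℚ) = Algebra.norm ℚ (c : F) := by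
    have := Algebra.isIntegral_norm ℚ (RingOfIntegers.isIntegral_coe c)
    obtain ⟨n, hn⟩ := IsIntegrallyClosed.isIntegral_iff.mp this
    exact ⟨n, hn⟩
  have hn0 : n ≠ 0 := by
    intro h
    rw [h] at hn
    have : Algebra.norm ℚ (c : F) = 0 := by rw [← hn]; simp
    rw [Algebra.norm_eq_zero_iff] at this
    exact hc (RingOfIntegers.coe_eq_zero_iff.mp this)
  rw [← h1, ← hn] at h2
  have h3 : ‖algebraMap ℚ ℂ (n : ℚ)‖ = |(n : ℝ)| := by
    simp
  rw [h3] at h2
  have h4 : (1 : ℤ) ≤ |n| := Int.one_le_abs hn0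
  have h5 : (1 : ℝ) ≤ |(n : ℝ)| := by exact_mod_cast h4
  linarith

/-- Control of integral elements of `F(v)`. -/
theorem ctrlF1 {F : Type} [Field F] [NumberField F] [Algebra F ℂ] (D : ℕ)
    (hdual : ∀ c : F, (∀ ω : 𝓞 F, IsIntegral ℤ (Algebra.trace ℚ F (c * ω))) →
      IsIntegral ℤ ((D : F) * c))
    {q : ℕ} {P : ℤ[X]} (hP : Good q P) (hq : q.Prime) (hd : Module.finrank ℚ F < q)
    (v : ℂ) (hv : aeval v P = 0) (z : F⟮v⟯) (hz : IsIntegral ℤ z)
    (X : ℝ) (hX : ∀ ρ : F⟮v⟯ →+* ℂ, ‖ρ z‖ ≤ X) (L : ℕ) (hL : 2 * D * X < 2 ^ (L + 1)) :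
    ∃ T : (𝓞 F)[X], T.natDegree ≤ L ∧
      aeval v (T.map (algebraMap (𝓞 F) F)) = D * (z : ℂ) := by
  classical
  have hmin := minpoly_lift (F := F) hP hq hd v hv
  have hint : IsIntegral F v := by
    refine ⟨P.map (Int.castRingHom F), hP.monic.map _, ?_⟩
    rw [eval₂_map_int, hv]
  obtain ⟨g, hgdeg, hg⟩ := (adjoin.powerBasis hint).exists_eq_aeval z
  have hdim : (adjoin.powerBasis hint).dim = q := by
    rw [adjoin.powerBasis_dim, hmin, hP.monic.natDegree_map, hP.deg]
  rw [hdim] at hgdeg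
  have hgen : (adjoin.powerBasis hint).gen = AdjoinSimple.gen F v := adjoin.powerBasis_gen hint
  rw [hgen] at hg
  -- embeddings
  have hemb : ∀ (φ : F →+* ℂ) (v' : ℂ), aeval v' P = 0 →
      ∃ ρ : F⟮v⟯ →+* ℂ, (∀ a : F, ρ (algebraMap F F⟮v⟯ a) = φ a) ∧ ρ z = g.eval₂ φ v' := by
    intro φ v' hv'
    obtain ⟨ρ, h1, h2⟩ := exists_embed (K := F) v hint φ v' (by rw [hmin, eval₂_map_int, hv'])
    refine ⟨ρ, h1, ?_⟩
    rw [hg, aeval_def, hom_eval₂, h2]
    congr 1
    ext a
    exact h1 a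
  -- integrality of the coefficients
  have hcoef : ∀ i, IsIntegral ℤ ((D : F) * g.coeff i) := by
    intro i
    apply hdual
    intro ω
    set gω : ℚ[X] := ∑ j ∈ Finset.range q,
      monomial j (Algebra.trace ℚ F (g.coeff j * ω)) with hgω
    have hgωdeg : gω.natDegree < q := by
      have h0 : gω.natDegree ≤ q - 1 := by
        rw [hgω]
        refine natDegree_sum_le_of_forall_le _ _ fun j hj => ?_
        refine (natDegree_monomial_le _).trans ?_
        have := Finset.mem_range.mp hj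
        omega
      have := hq.pos
      omega
    have hval : aeval v gω = ∑ σ : F →ₐ[ℚ] ℂ, σ ω * g.eval₂ (σ : F →+* ℂ) v := by
      rw [hgω, map_sum]
      have h1 : ∀ σ : F →ₐ[ℚ] ℂ, g.eval₂ (σ : F →+* ℂ) v =
          ∑ j ∈ Finset.range q, σ (g.coeff j) * v ^ j := by
        intro σ
        rw [eval₂_eq_sum_range' _ hgdeg]
        rfl
      simp_rw [h1, Finset.mul_sum]
      rw [Finset.sum_comm]
      refine Finset.sum_congr rfl fun j _ => ?_
      rw [aeval_monomial, trace_eq_sum_embeddings ℂ, Finset.sum_mul]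
      refine Finset.sum_congr rfl fun σ _ => ?_
      rw [map_mul]
      ring
    have hgωint : IsIntegral ℤ (aeval v gω) := by
      rw [hval]
      refine IsIntegral.sum _ fun σ _ => ?_
      obtain ⟨ρ, h1, h2⟩ := hemb (σ : F →+* ℂ) v hv
      rw [← h2]
      refine IsIntegral.mul ?_ (hz.map ρ.toIntAlgHom)
      exact (RingOfIntegers.isIntegral_coe ω).map (σ : F →+* ℂ).toIntAlgHom
    obtain ⟨g', hg'⟩ := hP.mono v hv gω hgωdeg hgωint
    by_cases hi : i < q
    · have h1 : gω.coeff i = Algebra.trace ℚ F (g.coeff i * ω) := by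
        rw [hgω, finsetSum_coeff]
        simp_rw [coeff_monomial]
        rw [Finset.sum_ite_eq' (Finset.range q) i]
        rw [if_pos (Finset.mem_range.mpr hi)]
      rw [← h1, ← hg', coeff_map]
      exact isIntegral_algebraMap (R := ℤ) (A := ℚ) (x := g'.coeff i)
    · rw [coeff_eq_zero_of_natDegree_lt (lt_of_lt_of_le hgdeg (not_lt.mp hi)), zero_mul,
        map_zero]
      exact isIntegral_zero
  obtain ⟨T, hT⟩ : ∃ T : (𝓞 F)[X], T.map (algebraMap (𝓞 F) F) = C (D : F) * g := by
    rw [← mem_lifts, lifts_iff_coeff_lifts]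
    intro i
    rw [coeff_C_mul]
    exact ⟨⟨(D : F) * g.coeff i, hcoef i⟩, rfl⟩
  have hinj : Function.Injective (algebraMap (𝓞 F) F) := RingOfIntegers.coe_injective
  refine ⟨T, ?_, ?_⟩
  · by_cases hT0 : T = 0
    · rw [hT0, natDegree_zero]; exact Nat.zero_le _
    · obtain ⟨φ, hφ⟩ := exists_one_le_embed F T.leadingCoeff (leadingCoeff_ne_zero.mpr hT0)
      have hTne : T.map (algebraMap (𝓞 F) F) ≠ 0 := by
        rw [Ne, Polynomial.map_eq_zero_iff hinj]; exact hT0
      have hDne : (D : F) ≠ 0 := by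
        intro h
        rw [h] at hT
        exact hTne (by rw [hT]; simp)
      have hnd : T.natDegree = g.natDegree := by
        rw [← natDegree_map_eq_of_injective hinj, hT, natDegree_C_mul hDne]
      have hlc : ((T.leadingCoeff : 𝓞 F) : F) = D * g.leadingCoeff := by
        have h1 : (T.map (algebraMap (𝓞 F) F)).leadingCoeff = algebraMap (𝓞 F) F T.leadingCoeff :=
          leadingCoeff_map_of_injective hinj T
        rw [hT, leadingCoeff_mul, leadingCoeff_C] at h1
        exact h1.symm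
      have hlead := hP.lead (g.map φ) X (by rw [natDegree_map]; exact hgdeg) (by
        intro v' hv'
        obtain ⟨ρ, h1, h2⟩ := hemb φ v' hv'
        rw [eval_map, ← h2]
        exact hX ρ)
      rw [natDegree_map, leadingCoeff_map] at hlead
      rw [hnd]
      rw [hlc, map_mul, norm_mul, map_natCast] at hφ
      have hDn : ‖(D : ℂ)‖ = D := by simp
      rw [hDn] at hφ
      have h2 : (2 : ℝ) ^ g.natDegree < 2 ^ (L + 1) := by
        calc (2 : ℝ) ^ g.natDegree = 1 * 2 ^ g.natDegree := by ring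
          _ ≤ (D * ‖φ g.leadingCoeff‖) * 2 ^ g.natDegree := by
              apply mul_le_mul_of_nonneg_right hφ (by positivity)
          _ = D * (‖φ g.leadingCoeff‖ * 2 ^ g.natDegree) := by ring
          _ ≤ D * (2 * X) := by
              apply mul_le_mul_of_nonneg_left hlead (by positivity)
          _ = 2 * D * X := by ring
          _ < 2 ^ (L + 1) := hL
      have h3 := (pow_lt_pow_iff_right₀ (by norm_num : (1 : ℝ) < 2)).mp h2
      omega
  · rw [hT, map_mul, aeval_C, map_natCast]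
    congr 1
    rw [hg]
    conv_lhs => rw [← AdjoinSimple.algebraMap_gen F v]
    rw [aeval_algebraMap_apply]
    rfl

end Pool.Agent.TH843.PY
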