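import Pool.Agent.TH843.PY.Core2

/-!
# The second extension `F(w)`, `R(w) = v`
-/

set_option autoImplicit false
open Polynomial NumberField IntermediateField

namespace Pool.Agent.TH843.PY

theorem integral_of_eval {F : Type} [Field F] [NumberField F] [Algebra F ℂ] (v : ℂ)
    (hv : IsIntegral ℤ v) (R : (𝓞 F)[X]) (hRu : IsUnit R.leadingCoeff) (hk : 1 ≤ R.natDegree)
    (w : ℂ) (hw : aeval w (R.map (algebraMap (𝓞 F) F)) = v) : IsIntegral ℤ w := by
  let ι : 𝓞 F →+* ℂ := (algebraMap F ℂ).comp (algebraMap (𝓞 F) F)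
  have hι : ∀ x : 𝓞 F, IsIntegral ℤ (ι x) := fun x => by
    have h1 := RingOfIntegers.isIntegral_coe x
    exact h1.map (algebraMap F ℂ).toIntAlgHom
  let A := integralClosure ℤ ℂ
  let ι' : 𝓞 F →+* A := ι.codRestrict A hι
  have hι' : ∀ x, algebraMap A ℂ (ι' x) = ι x := fun x => rfl
  have hιinj : Function.Injective ι' := by
    intro a b hab
    have h1 : ι a = ι b := by rw [← hι', hab, hι']
    exact RingOfIntegers.coe_injective ((algebraMap F ℂ).injective h1)
  let p : A[X] := R.map ι' - C ⟨v, hv⟩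
  have hdeg : (C (⟨v, hv⟩ : A)).degree < (R.map ι').degree := by
    refine lt_of_le_of_lt degree_C_le ?_
    rw [degree_map_eq_of_injective hιinj]
    exact natDegree_pos_iff_degree_pos.mp hk
  have hlc : p.leadingCoeff = ι' R.leadingCoeff := by
    have : p = -C (⟨v, hv⟩ : A) + R.map ι' := by
      simp only [p]; ring
    rw [this, leadingCoeff_add_of_degree_lt (by rw [degree_neg]; exact hdeg),
      leadingCoeff_map_of_injective hιinj]
  have hu : IsUnit p.leadingCoeff := by rw [hlc]; exact hRu.map ι'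
  have hmon := monic_of_isUnit_leadingCoeff_inv_smul hu
  have hroot : aeval w p = 0 := by
    simp only [p, map_sub, aeval_C]
    have h1 : aeval w (R.map ι') = v := by
      rw [← hw, aeval_def, aeval_def, eval₂_map, eval₂_map]
      rfl
    rw [h1]
    exact sub_self v
  have h1 : IsIntegral A w := by
    refine ⟨(hu.unit⁻¹) • p, hmon, ?_⟩
    rw [← aeval_def, Units.smul_def, map_smul, hroot, smul_zero]
  exact isIntegral_trans w h1

/-- Control of integral elements of `F(v)(w)`. -/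
theorem ctrlM {F : Type} [Field F] [NumberField F] [Algebra F ℂ] (D : ℕ)
    (hdual : ∀ c : F, (∀ ω : 𝓞 F, IsIntegral ℤ (Algebra.trace ℚ F (c * ω))) →
      IsIntegral ℤ ((D : F) * c))
    {q : ℕ} {P : ℤ[X]} (hP : Good q P) (hq : q.Prime) (hd : Module.finrank ℚ F < q)
    (v : ℂ) (hv : aeval v P = 0)
    (R : (𝓞 F)[X]) (hRu : IsUnit R.leadingCoeff) (k : ℕ) (hRk : R.natDegree = k) (hk : 1 ≤ k)
    (w : ℂ) (hw : aeval w (R.map (algebraMap (𝓞 F) F)) = v)
    (z : F⟮v⟯⟮w⟯) (hz : IsIntegral ℤ z)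
    (X Y : ℝ) (hX : ∀ ρ : F⟮v⟯⟮w⟯ →+* ℂ, ‖ρ z‖ ≤ X) (hY1 : 1 ≤ Y)
    (hY : ∀ ρ : F⟮v⟯⟮w⟯ →+* ℂ, ‖ρ (AdjoinSimple.gen F⟮v⟯ w)‖ ≤ Y)
    (L : ℕ) (hL : 2 * D * (k * (X * Y ^ k)) < 2 ^ (L + 1)) :
    ∃ G : (𝓞 F)[X], G.natDegree ≤ k * L + (k - 1) ∧
      aeval w (G.map (algebraMap (𝓞 F) F)) =
        D * aeval w (derivative (R.map (algebraMap (𝓞 F) F))) * (z : ℂ) := by
  classical
  have hvint : IsIntegral ℤ v := ⟨P, hP.monic, by rw [← aeval_def]; exact hv⟩
  have hwint : IsIntegral ℤ w := integral_of_eval v hvint R hRu (by omega) w hw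
  have hwK : IsIntegral F⟮v⟯ w := hwint.tower_top
  have := adjoin.finiteDimensional hwK
  have hinj : Function.Injective (algebraMap (𝓞 F) F) := RingOfIntegers.coe_injective
  set RF : F[X] := R.map (algebraMap (𝓞 F) F) with hRF
  have hRFk : RF.natDegree = k := by rw [hRF, natDegree_map_eq_of_injective hinj, hRk]
  set f : F⟮v⟯[X] := RF.map (algebraMap F F⟮v⟯) - C (AdjoinSimple.gen F v) with hf
  have hfdeg : f.natDegree = k := by
    rw [hf, natDegree_sub_C, natDegree_map, hRFk]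
  have hfw : aeval w f = 0 := by
    rw [hf, map_sub, aeval_map_algebraMap, aeval_C, AdjoinSimple.algebraMap_gen, hw, sub_self]
  have hf' : aeval w (derivative f) = aeval w (derivative RF) := by
    rw [hf, derivative_sub, derivative_C, sub_zero, derivative_map, aeval_map_algebraMap]
  have hfc : ∀ l, 1 ≤ l → algebraMap F⟮v⟯ ℂ (f.coeff l) = algebraMap F ℂ (RF.coeff l) := by
    intro l hl
    rw [hf, coeff_sub, coeff_map, coeff_C_of_ne_zero (by omega), sub_zero]
    rfl
  -- degree of the extension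
  have hfr : Module.finrank F⟮v⟯ F⟮v⟯⟮w⟯ ≤ k := by
    rw [adjoin.finrank hwK, ← hfdeg]
    apply natDegree_le_of_dvd (minpoly.dvd _ _ hfw)
    intro h
    rw [h, natDegree_zero] at hfdeg
    omega
  have hX0 : 0 ≤ X := by
    obtain ⟨ρ, -⟩ := exists_extend (K := F⟮v⟯) (E := F⟮v⟯⟮w⟯) (algebraMap F⟮v⟯ ℂ)
    exact (norm_nonneg _).trans (hX ρ)
  set g := AdjoinSimple.gen F⟮v⟯ w with hg
  have hgint : IsIntegral ℤ g := by
    have h1 : IsIntegral ℤ (algebraMap F⟮v⟯⟮w⟯ ℂ g) := by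
      rw [AdjoinSimple.algebraMap_gen]; exact hwint
    exact (isIntegral_algebraMap_iff (algebraMap F⟮v⟯⟮w⟯ ℂ).injective).mp h1
  have htr : ∀ j, j < k → ∃ T : (𝓞 F)[X], T.natDegree ≤ L ∧
      aeval v (T.map (algebraMap (𝓞 F) F)) =
        D * algebraMap F⟮v⟯ ℂ (Algebra.trace F⟮v⟯ F⟮v⟯⟮w⟯ (z * g ^ j)) := by
    intro j hj
    apply ctrlF1 D hdual hP hq hd v hv _ _ (k * (X * Y ^ k)) _ L hL
    · exact Algebra.isIntegral_trace (hz.mul (hgint.pow j))
    · intro ρ'
      refine (trace_bound (z * g ^ j) (X * Y ^ k) ?_ ρ').trans ?_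
      · intro ρ
        rw [map_mul, norm_mul, map_pow, norm_pow]
        have h1 : ‖ρ g‖ ^ j ≤ Y ^ k := by
          calc ‖ρ g‖ ^ j ≤ Y ^ j := pow_le_pow_left₀ (norm_nonneg _) (hY ρ) j
            _ ≤ Y ^ k := pow_le_pow_right₀ hY1 hj.le
        exact mul_le_mul (hX ρ) h1 (by positivity) hX0
      · apply mul_le_mul_of_nonneg_right
        · exact_mod_cast hfr
        · positivity
  choose! T hTdeg hTval using htr
  refine ⟨∑ l ∈ Finset.range (k + 1), ∑ i ∈ Finset.range l,
    C (R.coeff l) * (T (l - 1 - i)).comp R * (Polynomial.X : (𝓞 F)[X]) ^ i, ?_, ?_⟩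
  · refine natDegree_sum_le_of_forall_le _ _ fun l hl => ?_
    refine natDegree_sum_le_of_forall_le _ _ fun i hi => ?_
    have hl' := Finset.mem_range.mp hl
    have hi' := Finset.mem_range.mp hi
    refine natDegree_mul_le.trans ?_
    refine Nat.add_le_add ?_ ?_
    · refine natDegree_mul_le.trans ?_
      rw [natDegree_C, zero_add]
      refine natDegree_comp_le.trans ?_
      rw [hRk, mul_comm]
      exact Nat.mul_le_mul_left k (hTdeg _ (by omega))
    · rw [natDegree_X_pow]; omega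
  · have hE := euler_lemma w hwK f hfw z
    rw [hf'] at hE
    rw [mul_assoc, hE, hfdeg, Polynomial.map_sum, map_sum, Finset.mul_sum]
    refine Finset.sum_congr rfl fun l hl => ?_
    rw [Polynomial.map_sum, map_sum, Finset.mul_sum]
    refine Finset.sum_congr rfl fun i hi => ?_
    have hl' := Finset.mem_range.mp hl
    have hi' := Finset.mem_range.mp hi
    rw [hfc l (by omega)]
    rw [Polynomial.map_mul, Polynomial.map_mul, Polynomial.map_pow, map_X, map_C,
      Polynomial.map_comp, map_mul, map_mul, map_pow, aeval_X, aeval_C, aeval_comp]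
    rw [← hRF, hw, hTval _ (by omega), hRF, coeff_map]
    ring

end Pool.Agent.TH843.PY
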