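import Mathlib

/-!
# Real-place inequalities and divisibilities
-/

set_option autoImplicit false
open Polynomial

namespace Pool.Agent.TH843.PY

/-- Chebyshev's extremal inequality for vector-valued polynomials. -/
theorem cheb_vec {r K : ℕ} (hK : 1 ≤ K) (g : Fin r → ℝ[X]) (hg : ∀ j, (g j).natDegree ≤ K)
    (x y : ℝ) (hx : 0 < x) (hy : 0 < y)
    (h : ∀ W : ℝ, W ^ 2 ≤ y → ∑ j, (g j).eval W ^ 2 ≤ 4 * x) :
    (y / 4) ^ K * ∑ j, (g j).coeff K ^ 2 ≤ x := by
  set A := ∑ j, (g j).coeff K ^ 2 with hA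
  have hA0 : 0 ≤ A := Finset.sum_nonneg fun j _ => sq_nonneg _
  rcases hA0.eq_or_lt with h0 | hApos
  · rw [← h0, mul_zero]; exact hx.le
  set s := Real.sqrt y with hs
  have hs0 : 0 < s := Real.sqrt_pos.mpr hy
  have hss : s ^ 2 = y := Real.sq_sqrt hy.le
  set m := Real.sqrt (A * (4 * x)) with hm
  have hm0 : 0 < m := Real.sqrt_pos.mpr (by positivity)
  have hmm : m ^ 2 = A * (4 * x) := Real.sq_sqrt (by positivity)
  set p : ℝ[X] := ∑ j, C ((g j).coeff K) * g j with hp
  set Q : ℝ[X] := C (m⁻¹) * p.comp (C s * X) with hQ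
  have hpK : p.coeff K = A := by
    rw [hp, finsetSum_coeff, hA]
    refine Finset.sum_congr rfl fun j _ => ?_
    rw [coeff_C_mul, sq]
  have hpdeg : p.natDegree ≤ K := by
    refine natDegree_sum_le_of_forall_le _ _ fun j _ => ?_
    exact (natDegree_C_mul_le _ _).trans (hg j)
  have hQdeg : Q.degree ≤ K := by
    rw [← natDegree_le_iff_degree_le]
    refine (natDegree_C_mul_le _ _).trans ?_
    refine natDegree_comp_le.trans ?_
    have : (C s * X : ℝ[X]).natDegree ≤ 1 := (natDegree_C_mul_le _ _).trans natDegree_X_le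
    calc p.natDegree * (C s * X : ℝ[X]).natDegree ≤ K * 1 := Nat.mul_le_mul hpdeg this
      _ = K := mul_one _
  have hQK : Q.coeff K = m⁻¹ * (A * s ^ K) := by
    rw [hQ, coeff_C_mul, comp_C_mul_X_coeff, hpK]
  have hbnd : ∀ t ∈ Set.Icc (-1 : ℝ) 1, |Q.eval t| ≤ 1 := by
    intro t ht
    have ht2 : (s * t) ^ 2 ≤ y := by
      rw [mul_pow, hss]
      have : t ^ 2 ≤ 1 := by
        rw [sq_le_one_iff_abs_le_one, abs_le]; exact ht
      nlinarith
    have h1 : p.eval (s * t) ^ 2 ≤ A * (4 * x) := by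
      calc p.eval (s * t) ^ 2 = (∑ j, (g j).coeff K * (g j).eval (s * t)) ^ 2 := by
            rw [hp, eval_finsetSum]; simp
        _ ≤ (∑ j, (g j).coeff K ^ 2) * ∑ j, (g j).eval (s * t) ^ 2 :=
            Finset.sum_mul_sq_le_sq_mul_sq _ _ _
        _ ≤ A * (4 * x) := mul_le_mul_of_nonneg_left (h _ ht2) hA0
    rw [← hmm] at h1
    have h2 : |p.eval (s * t)| ≤ m := abs_le_of_sq_le_sq' h1 hm0.le |> abs_le.mpr
    rw [hQ, eval_mul, eval_C, eval_comp, eval_mul, eval_C, eval_X, abs_mul, abs_of_pos (inv_pos.mpr hm0)]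
    rw [inv_mul_le_iff₀ hm0, mul_one]
    exact h2
  have hfin := Chebyshev.coeff_le_of_forall_abs_le_one hQdeg hbnd
  rw [hQK, inv_mul_le_iff₀ hm0] at hfin
  have h3 : (A * s ^ K) ^ 2 ≤ (m * 2 ^ (K - 1)) ^ 2 :=
    pow_le_pow_left₀ (by positivity) hfin 2
  have h4 : (A * s ^ K) ^ 2 = A * (A * y ^ K) := by
    rw [mul_pow, ← pow_mul, mul_comm K 2, pow_mul, hss]; ring
  have h5 : (m * 2 ^ (K - 1)) ^ 2 = A * (x * 4 ^ K) := by
    have : (4 : ℝ) ^ K = 4 * (2 ^ (K - 1)) ^ 2 := by
      obtain ⟨n, rfl⟩ : ∃ n, K = n + 1 := ⟨K - 1, by omega⟩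
      simp only [Nat.add_sub_cancel]
      rw [← pow_mul, mul_comm n 2, pow_mul]; norm_num; ring
    rw [mul_pow, hmm, this]; ring
  rw [h4, h5] at h3
  have h6 := le_of_mul_le_mul_left h3 hApos
  rw [div_pow, div_mul_eq_mul_div, div_le_iff₀ (by positivity)]
  linarith

/-- A polynomial with as many distinct roots as its degree divides every polynomial
vanishing there. -/
theorem dvd_of_zeros {Q H : ℝ[X]} (hQ : Q ≠ 0) (u : Finset ℝ) (hu : Q.natDegree ≤ u.card)
    (h1 : ∀ θ ∈ u, Q.eval θ = 0) (h2 : ∀ θ ∈ u, H.eval θ = 0) : Q ∣ H := by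
  by_cases hH : H = 0
  · rw [hH]; exact dvd_zero _
  have h3 : u.val ≤ Q.roots := by
    rw [Multiset.le_iff_subset u.nodup]
    intro θ hθ
    rw [mem_roots hQ]
    exact h1 θ hθ
  have h4 : u.val ≤ H.roots := by
    rw [Multiset.le_iff_subset u.nodup]
    intro θ hθ
    rw [mem_roots hH]
    exact h2 θ hθ
  have h5 : u.val = Q.roots := Multiset.eq_of_le_of_card_le h3 ((card_roots' Q).trans hu)
  have h6 : Q.Splits := by
    rw [splits_iff_card_roots]
    apply le_antisymm (card_roots' Q)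
    rw [← h5]
    exact hu
  exact h6.dvd_of_roots_le_roots hQ (h5 ▸ h4)

theorem rolle_finset (p : ℝ[X]) (b : ℝ) (s : Finset ℝ) (hs : ∀ w ∈ s, w ^ 2 < b ∧ p.eval w = 0) :
    ∃ t : Finset ℝ, s.card ≤ t.card + 1 ∧ ∀ θ ∈ t, θ ^ 2 < b ∧ (derivative p).eval θ = 0 := by
  classical
  rcases Nat.eq_zero_or_pos s.card with h0 | hpos
  · exact ⟨∅, by simp [h0], by simp⟩
  obtain ⟨n, hn⟩ : ∃ n, s.card = n + 1 := ⟨s.card - 1, by omega⟩
  let e := s.orderEmbOfFin hn
  have hstep : ∀ i : Fin n, ∃ θ, e i.castSucc < θ ∧ θ < e i.succ ∧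
      (derivative p).eval θ = 0 := by
    intro i
    have hlt : e i.castSucc < e i.succ := e.strictMono (Fin.castSucc_lt_succ (i := i))
    obtain ⟨θ, hθ, hd⟩ := exists_hasDerivAt_eq_zero (f := fun x => p.eval x)
      (f' := fun x => (derivative p).eval x) hlt p.continuous.continuousOn
      (by
        have h1 := (hs _ (s.orderEmbOfFin_mem hn i.castSucc)).2
        have h2 := (hs _ (s.orderEmbOfFin_mem hn i.succ)).2
        show p.eval (e i.castSucc) = p.eval (e i.succ)
        rw [h1, h2])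
      (fun x _ => p.hasDerivAt x)
    exact ⟨θ, hθ.1, hθ.2, hd⟩
  choose θ h1 h2 h3 using hstep
  have hmono : StrictMono θ := by
    intro i j hij
    calc θ i < e i.succ := h2 i
      _ ≤ e j.castSucc := e.monotone (by
        rw [Fin.le_def]; simp only [Fin.val_succ, Fin.val_castSucc]; exact hij)
      _ < θ j := h1 j
  refine ⟨Finset.univ.image θ, ?_, ?_⟩
  · rw [Finset.card_image_of_injective _ hmono.injective, Finset.card_univ, Fintype.card_fin, hn]
  · intro x hx
    obtain ⟨i, -, rfl⟩ := Finset.mem_image.mp hx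
    refine ⟨?_, h3 i⟩
    have ha := (hs _ (s.orderEmbOfFin_mem hn i.castSucc)).1
    have hb := (hs _ (s.orderEmbOfFin_mem hn i.succ)).1
    rw [Real.sq_lt] at ha hb ⊢
    exact ⟨ha.1.trans (h1 i), (h2 i).trans hb.2⟩

/-- Divisibility of the coordinates. -/
theorem quot_lemma {F : Type*} [Field F] [CharZero F] (φ : F →+* ℝ) (y x c : F) (hc : c ≠ 0)
    (R : F[X]) (k : ℕ) (hk : 1 ≤ k) (hR : R.natDegree = k) (s : Finset ℝ) (hs : s.card = k)
    (hroot : ∀ w ∈ s, w ^ 2 < φ y ∧ (R.map φ).eval w = 0)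
    {r : ℕ} (G H : Fin r → F[X]) (h1 : ∑ j, G j * H j = 0)
    (h2 : (C y - X ^ 2) * ∑ j, (G j) ^ 2 + ∑ j, (H j) ^ 2 =
      4 * (C c * derivative R) ^ 2 * C x * (C y - X ^ 2)) :
    ∃ g h : Fin r → F[X], (∀ j, G j = C c * derivative R * g j) ∧
      (∀ j, H j = C c * derivative R * (C y - X ^ 2) * h j) ∧ ∑ j, g j * h j = 0 ∧
      ∑ j, (g j) ^ 2 + (C y - X ^ 2) * ∑ j, (h j) ^ 2 = 4 * C x := by
  classical
  obtain ⟨w0, hw0⟩ : s.Nonempty := Finset.card_pos.mp (by omega)
  have hy : 0 < φ y := lt_of_le_of_lt (sq_nonneg _) (hroot w0 hw0).1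
  obtain ⟨t, ht, htr⟩ := rolle_finset (R.map φ) (φ y) s hroot
  have hRd : (derivative R).natDegree = k - 1 := by
    rw [natDegree_derivative, hR]
  have hR0 : derivative R ≠ 0 := by
    intro h
    have := derivative_eq_zero.mp h
    omega
  have hRd' : ((derivative R).map φ).natDegree = k - 1 := by rw [natDegree_map, hRd]
  have hRd0 : (derivative R).map φ ≠ 0 := by
    rw [Ne, Polynomial.map_eq_zero]; exact hR0
  have hyX : (C y - X ^ 2 : F[X]).natDegree = 2 := by
    rw [natDegree_sub_eq_right_of_natDegree_lt]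
    · simp
    · simp
  have hyX0 : (C y - X ^ 2 : F[X]) ≠ 0 := by
    intro h; rw [h, natDegree_zero] at hyX; omega
  -- evaluation
  have hev : ∀ θ : ℝ, (φ y - θ ^ 2) * ∑ j, ((G j).map φ).eval θ ^ 2 +
      ∑ j, ((H j).map φ).eval θ ^ 2 =
      4 * (φ c * ((derivative R).map φ).eval θ) ^ 2 * φ x * (φ y - θ ^ 2) := by
    intro θ
    have h3 := congrArg (fun p : F[X] => (p.map φ).eval θ) h2
    simpa [Polynomial.map_sum, eval_finsetSum] using h3
  have hGt : ∀ θ ∈ t, ∀ j, ((G j).map φ).eval θ = 0 ∧ ((H j).map φ).eval θ = 0 := by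
    intro θ hθ j
    obtain ⟨ha, hb⟩ := htr θ hθ
    rw [derivative_map] at hb
    have h3 := hev θ
    rw [hb] at h3
    have hpos : 0 < φ y - θ ^ 2 := by linarith
    have hA : 0 ≤ ∑ j, ((G j).map φ).eval θ ^ 2 := Finset.sum_nonneg fun _ _ => sq_nonneg _
    have hB : 0 ≤ ∑ j, ((H j).map φ).eval θ ^ 2 := Finset.sum_nonneg fun _ _ => sq_nonneg _
    have hA0 : ∑ j, ((G j).map φ).eval θ ^ 2 = 0 := by nlinarith
    have hB0 : ∑ j, ((H j).map φ).eval θ ^ 2 = 0 := by nlinarith
    rw [Finset.sum_eq_zero_iff_of_nonneg (fun _ _ => sq_nonneg _)] at hA0 hB0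
    exact ⟨pow_eq_zero_iff (two_ne_zero) |>.mp (hA0 j (Finset.mem_univ _)),
      pow_eq_zero_iff (two_ne_zero) |>.mp (hB0 j (Finset.mem_univ _))⟩
  have hGdvd : ∀ j, derivative R ∣ G j := by
    intro j
    rw [← Polynomial.map_dvd_map' φ]
    apply dvd_of_zeros hRd0 t (by omega)
    · intro θ hθ
      have := (htr θ hθ).2
      rwa [derivative_map] at this
    · intro θ hθ
      exact (hGt θ hθ j).1
  have hHdvd : ∀ j, derivative R * (C y - X ^ 2) ∣ H j := by
    intro j
    rw [← Polynomial.map_dvd_map' φ]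
    set u := Real.sqrt (φ y) with hu
    have hu0 : 0 < u := Real.sqrt_pos.mpr hy
    have huu : u ^ 2 = φ y := Real.sq_sqrt hy.le
    have hprod0 : (derivative R * (C y - X ^ 2)).map φ ≠ 0 := by
      rw [Ne, Polynomial.map_eq_zero]; exact mul_ne_zero hR0 hyX0
    have hnotu : u ∉ insert (-u) t := by
      rw [Finset.mem_insert]
      rintro (h | h)
      · linarith
      · have := (htr u h).1; linarith
    have hnotu' : -u ∉ t := by
      intro h
      have := (htr (-u) h).1
      rw [neg_sq] at this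
      linarith
    have hz : ∀ θ : ℝ, θ ^ 2 = φ y → ((H j).map φ).eval θ = 0 := by
      intro θ hθ
      have h3 := hev θ
      rw [hθ, sub_self, zero_mul, zero_add, mul_zero] at h3
      rw [Finset.sum_eq_zero_iff_of_nonneg (fun _ _ => sq_nonneg _)] at h3
      exact pow_eq_zero_iff (two_ne_zero) |>.mp (h3 j (Finset.mem_univ _))
    apply dvd_of_zeros hprod0 (insert u (insert (-u) t))
    · rw [Finset.card_insert_of_notMem hnotu, Finset.card_insert_of_notMem hnotu', natDegree_map,
        natDegree_mul hR0 hyX0, hRd, hyX]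
      omega
    · intro θ hθ
      rw [Polynomial.map_mul, eval_mul]
      rw [Finset.mem_insert, Finset.mem_insert] at hθ
      rcases hθ with rfl | rfl | hθ
      · rw [mul_eq_zero]; right; simp [huu]
      · rw [mul_eq_zero]; right; simp [huu]
      · have := (htr θ hθ).2
        rw [derivative_map] at this
        rw [this, zero_mul]
    · intro θ hθ
      rw [Finset.mem_insert, Finset.mem_insert] at hθ
      rcases hθ with rfl | rfl | hθ
      · exact hz _ huu
      · exact hz _ (by rw [neg_sq]; exact huu)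
      · exact (hGt θ hθ j).2
  have hCc : (C c : F[X]) * C c⁻¹ = 1 := by rw [← C_mul, mul_inv_cancel₀ hc, C_1]
  choose g0 hg0 using hGdvd
  choose h0 hh0 using hHdvd
  have hg : ∀ j, G j = C c * derivative R * (C c⁻¹ * g0 j) := by
    intro j
    rw [hg0 j]
    linear_combination (-(derivative R * g0 j)) * hCc
  have hh : ∀ j, H j = C c * derivative R * (C y - X ^ 2) * (C c⁻¹ * h0 j) := by
    intro j
    rw [hh0 j]
    linear_combination (-(derivative R * (C y - X ^ 2) * h0 j)) * hCc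
  refine ⟨fun j => C c⁻¹ * g0 j, fun j => C c⁻¹ * h0 j, hg, hh, ?_, ?_⟩
  · have hne : (C c * derivative R) ^ 2 * (C y - X ^ 2) ≠ 0 :=
      mul_ne_zero (pow_ne_zero _ (mul_ne_zero (C_ne_zero.mpr hc) hR0)) hyX0
    apply mul_left_cancel₀ hne
    rw [mul_zero, ← h1, Finset.mul_sum]
    refine Finset.sum_congr rfl fun j _ => ?_
    rw [hg j, hh j]; ring
  · have hne : (C c * derivative R) ^ 2 * (C y - X ^ 2) ≠ 0 :=
      mul_ne_zero (pow_ne_zero _ (mul_ne_zero (C_ne_zero.mpr hc) hR0)) hyX0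
    apply mul_left_cancel₀ hne
    have h3 : (C c * derivative R) ^ 2 * (C y - X ^ 2) * (4 * C x) =
      4 * (C c * derivative R) ^ 2 * C x * (C y - X ^ 2) := by ring
    rw [h3, ← h2, mul_add]
    congr 1
    · rw [Finset.mul_sum, Finset.mul_sum]
      refine Finset.sum_congr rfl fun j _ => ?_
      rw [hg j]; ring
    · rw [Finset.mul_sum, Finset.mul_sum]
      refine Finset.sum_congr rfl fun j _ => ?_
      rw [hh j]; ring

/-- Comparison of the top coefficients. -/
theorem top_lemma {F : Type*} [Field F] [CharZero F] (φ0 : F →+* ℝ) (y x : F) {r : ℕ}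
    (g h : Fin r → F[X]) (h1 : ∑ j, g j * h j = 0)
    (h2 : ∑ j, (g j) ^ 2 + (C y - X ^ 2) * ∑ j, (h j) ^ 2 = 4 * C x) (B : ℕ)
    (hgB : ∀ j, (g j).natDegree ≤ B) (hhB : ∀ j, (h j).natDegree + 1 ≤ B) :
    ((∀ j, h j = 0) ∧ ∀ j, (g j).natDegree = 0) ∨
    ∃ K : ℕ, 1 ≤ K ∧ K ≤ B ∧ (∀ j, (g j).natDegree ≤ K) ∧ (∀ j, (h j).natDegree + 1 ≤ K) ∧
      (∑ j, (g j).coeff K ^ 2 = ∑ j, (h j).coeff (K - 1) ^ 2) ∧
      ∃ a b : Fin r, a ≠ b ∧ (g a).coeff K ^ 2 + (h a).coeff (K - 1) ^ 2 ≠ 0 ∧
        (g b).coeff K ^ 2 + (h b).coeff (K - 1) ^ 2 ≠ 0 := by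
  classical
  set dg : Fin r → ℕ := fun j => max (g j).natDegree (if h j = 0 then 0 else (h j).natDegree + 1)
    with hdg
  set K := Finset.univ.sup dg with hK
  rcases Nat.eq_zero_or_pos K with h0 | hpos
  · left
    have h3 : ∀ j, dg j = 0 := fun j => by
      have := Finset.le_sup (f := dg) (Finset.mem_univ j)
      omega
    refine ⟨fun j => ?_, fun j => ?_⟩
    · have := h3 j
      by_contra hne
      simp only [hdg, if_neg hne] at this
      omega
    · have := h3 j
      simp only [hdg] at this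
      omega
  · right
    have hgK : ∀ j, (g j).natDegree ≤ K := fun j =>
      (le_max_left _ _).trans (Finset.le_sup (f := dg) (Finset.mem_univ j))
    have hhK : ∀ j, (h j).natDegree + 1 ≤ K := by
      intro j
      by_cases hz : h j = 0
      · rw [hz, natDegree_zero]; omega
      · have h3 := (le_max_right (g j).natDegree (if h j = 0 then 0 else (h j).natDegree + 1)).trans
          (Finset.le_sup (f := dg) (Finset.mem_univ j))
        rw [if_neg hz] at h3
        exact h3
    obtain ⟨m, hm⟩ : ∃ m, K = m + 1 := ⟨K - 1, by omega⟩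
    have hhm : ∀ j, (h j).natDegree ≤ m := fun j => by have := hhK j; omega
    have hAB : ∑ j, (g j).coeff K ^ 2 = ∑ j, (h j).coeff (K - 1) ^ 2 := by
      have h3 := congrArg (fun p : F[X] => p.coeff (2 * K)) h2
      simp only [coeff_add, sub_mul, coeff_sub, finsetSum_coeff] at h3
      have e1 : ∀ j, ((g j) ^ 2).coeff (2 * K) = (g j).coeff K ^ 2 := fun j =>
        coeff_pow_of_natDegree_le (hgK j)
      have e2 : (C y * ∑ j, (h j) ^ 2).coeff (2 * K) = 0 := by
        rw [coeff_C_mul, finsetSum_coeff]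
        have : ∀ j, ((h j) ^ 2).coeff (2 * K) = 0 := fun j => by
          apply coeff_eq_zero_of_natDegree_lt
          refine lt_of_le_of_lt (natDegree_pow_le) ?_
          have := hhm j
          omega
        simp [this]
      have e3 : (X ^ 2 * ∑ j, (h j) ^ 2).coeff (2 * K) = ∑ j, (h j).coeff (K - 1) ^ 2 := by
        have : 2 * K = 2 * m + 2 := by omega
        rw [this, coeff_X_pow_mul, finsetSum_coeff]
        refine Finset.sum_congr rfl fun j _ => ?_
        rw [coeff_pow_of_natDegree_le (hhm j)]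
        congr 2
        omega
      have e4 : (4 * C x : F[X]).coeff (2 * K) = 0 := by
        have : (4 * C x : F[X]) = C (4 * x) := by rw [C_mul, map_ofNat]
        rw [this, coeff_C_of_ne_zero (by omega)]
      rw [e2, e3, e4, zero_sub] at h3
      simp_rw [e1] at h3
      linear_combination h3
    have hABo : ∑ j, (g j).coeff K * (h j).coeff (K - 1) = 0 := by
      have h3 := congrArg (fun p : F[X] => p.coeff (K + m)) h1
      simp only [finsetSum_coeff, coeff_zero] at h3
      rw [← h3]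
      refine Finset.sum_congr rfl fun j _ => ?_
      rw [coeff_mul_add_eq_of_natDegree_le (hgK j) (hhm j)]
      congr 2
      omega
    have hKB : K ≤ B := by
      apply Finset.sup_le
      intro j _
      simp only [hdg]
      apply max_le (hgB j)
      split_ifs
      · exact Nat.zero_le _
      · exact hhB j
    refine ⟨K, hpos, hKB, hgK, hhK, hAB, ?_⟩
    -- one nonzero
    have hsq : ∀ a b : F, a ^ 2 + b ^ 2 = 0 → a = 0 ∧ b = 0 := by
      intro a b hab
      have h3 := congrArg φ0 hab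
      rw [map_add, map_pow, map_pow, map_zero] at h3
      have ha : φ0 a = 0 := by nlinarith [sq_nonneg (φ0 a), sq_nonneg (φ0 b)]
      have hb : φ0 b = 0 := by nlinarith [sq_nonneg (φ0 a), sq_nonneg (φ0 b)]
      exact ⟨(_root_.map_eq_zero φ0).mp ha, (_root_.map_eq_zero φ0).mp hb⟩
    obtain ⟨a, ha⟩ : ∃ a, (g a).coeff K ^ 2 + (h a).coeff (K - 1) ^ 2 ≠ 0 := by
      obtain ⟨j, -, hj⟩ := Finset.exists_mem_eq_sup Finset.univ
        (by
          by_contra hne
          rw [Finset.not_nonempty_iff_eq_empty] at hne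
          rw [hK, hne, Finset.sup_empty] at hpos
          exact absurd hpos (by simp)) dg
      refine ⟨j, fun hz => ?_⟩
      obtain ⟨z1, z2⟩ := hsq _ _ hz
      rw [← hK] at hj
      simp only [hdg] at hj
      rcases le_total (g j).natDegree (if h j = 0 then 0 else (h j).natDegree + 1) with hle | hle
      · rw [max_eq_right hle] at hj
        split_ifs at hj with hz0
        · omega
        · rw [hj, Nat.add_sub_cancel] at z2
          exact hz0 (leadingCoeff_eq_zero.mp z2)
      · rw [max_eq_left hle] at hj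
        rw [hj] at z1
        have : g j = 0 := leadingCoeff_eq_zero.mp z1
        rw [this, natDegree_zero] at hj
        omega
    by_contra hcon
    push Not at hcon
    have hb : ∀ b, b ≠ a → (g b).coeff K = 0 ∧ (h b).coeff (K - 1) = 0 := by
      intro b hb
      exact hsq _ _ (hcon a b (Ne.symm hb) ha)
    rw [Finset.sum_eq_single a (fun b _ hba => by rw [(hb b hba).1, zero_mul])
      (fun h => absurd (Finset.mem_univ _) h)] at hABo
    rw [Finset.sum_eq_single a (fun b _ hba => by rw [(hb b hba).1]; ring)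
      (fun h => absurd (Finset.mem_univ _) h),
      Finset.sum_eq_single a (fun b _ hba => by rw [(hb b hba).2]; ring)
      (fun h => absurd (Finset.mem_univ _) h)] at hAB
    apply ha
    rcases mul_eq_zero.mp hABo with hz | hz
    · rw [← hAB, hz]; ring
    · rw [hAB, hz]; ring

end Pool.Agent.TH843.PY
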