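import Mathlib

/-!
# Norms in totally real fields
-/

set_option autoImplicit false
open Polynomial NumberField

namespace Pool.Agent.TH843.PY

/-- The real embedding attached to a complex embedding with real image. -/
noncomputable def toRealHom {F : Type*} [Field F] (ψ : F →+* ℂ) (h : ∀ x, (ψ x).im = 0) :
    F →+* ℝ where
  toFun x := (ψ x).re
  map_one' := by simp
  map_mul' x y := by rw [map_mul, Complex.mul_re, h x, h y]; ring
  map_zero' := by simp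
  map_add' x y := by simp

theorem toRealHom_coe {F : Type*} [Field F] (ψ : F →+* ℂ) (h : ∀ x, (ψ x).im = 0) (x : F) :
    ((toRealHom ψ h x : ℝ) : ℂ) = ψ x := by
  apply Complex.ext
  · simp [toRealHom]
  · simp [h x]

/-- Real embeddings are the complex embeddings. -/
noncomputable def realEquiv {F : Type*} [Field F] [CharZero F]
    (hTR : ∀ φ : F →+* ℂ, ∀ x : F, (φ x).im = 0) : (F →+* ℝ) ≃ (F →ₐ[ℚ] ℂ) where
  toFun φ := (Complex.ofRealHom.comp φ).toRatAlgHom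
  invFun σ := toRealHom (σ : F →+* ℂ) (hTR _)
  left_inv φ := by
    ext x
    simp [toRealHom]
  right_inv σ := by
    ext x
    exact toRealHom_coe (σ : F →+* ℂ) (hTR _) x

theorem prod_real {F : Type} [Field F] [NumberField F]
    (hTR : ∀ φ : F →+* ℂ, ∀ x : F, (φ x).im = 0) (z : F) :
    ∏ φ : F →+* ℝ, φ z = (Algebra.norm ℚ z : ℝ) := by
  have h1 : algebraMap ℚ ℂ (Algebra.norm ℚ z) = ∏ σ : F →ₐ[ℚ] ℂ, σ z :=
    Algebra.norm_eq_prod_embeddings ℚ ℂ z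
  have h2 : ((∏ φ : F →+* ℝ, φ z : ℝ) : ℂ) = ∏ σ : F →ₐ[ℚ] ℂ, σ z := by
    rw [Complex.ofReal_prod]
    refine Fintype.prod_equiv (realEquiv hTR) _ _ fun φ => ?_
    rfl
  apply Complex.ofReal_injective
  rw [h2, ← h1]
  simp

theorem card_real {F : Type} [Field F] [NumberField F]
    (hTR : ∀ φ : F →+* ℂ, ∀ x : F, (φ x).im = 0) :
    Fintype.card (F →+* ℝ) = Module.finrank ℚ F := by
  rw [Fintype.card_congr (realEquiv hTR), AlgHom.card ℚ F ℂ]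

/-- Nonzero algebraic integers have norm at least one in absolute value. -/
theorem one_le_prod_real {F : Type} [Field F] [NumberField F]
    (hTR : ∀ φ : F →+* ℂ, ∀ x : F, (φ x).im = 0) (z : F) (hz : IsIntegral ℤ z) (hz0 : z ≠ 0) :
    1 ≤ |∏ φ : F →+* ℝ, φ z| := by
  rw [prod_real hTR]
  obtain ⟨n, hn⟩ : ∃ n : ℤ, (n : ℚ) = Algebra.norm ℚ z := by
    have := Algebra.isIntegral_norm ℚ hz
    obtain ⟨n, hn⟩ := IsIntegrallyClosed.isIntegral_iff.mp this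
    exact ⟨n, hn⟩
  have hn0 : n ≠ 0 := by
    intro h
    rw [h] at hn
    have : Algebra.norm ℚ z = 0 := by rw [← hn]; simp
    rw [Algebra.norm_eq_zero_iff] at this
    exact hz0 this
  rw [← hn]
  have h4 : (1 : ℤ) ≤ |n| := Int.one_le_abs hn0
  have h5 : (1 : ℝ) ≤ |(n : ℝ)| := by exact_mod_cast h4
  simpa using h5

/-- The final norm inequality. -/
theorem arith_lemma {F : Type} [Field F] [NumberField F]
    (hTR : ∀ φ : F →+* ℂ, ∀ x : F, (φ x).im = 0) (x y : F) (hx : ∀ φ : F →+* ℝ, 0 < φ x)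
    (hy : ∀ φ : F →+* ℝ, 0 < φ y)
    (h4 : (4 : ℝ) ^ (Module.finrank ℚ F) < ∏ φ : F →+* ℝ, φ y)
    (κ μ : F) (m N K : ℕ) (hK : 1 ≤ K)
    (hκ : IsIntegral ℤ ((m : F) * κ ^ N)) (hκ0 : κ ≠ 0) (hm : m ≠ 0)
    (hμ : IsIntegral ℤ ((m : F) * μ ^ N)) (hμ0 : μ ≠ 0)
    (hκp : ∀ φ : F →+* ℝ, 0 ≤ φ κ) (hμp : ∀ φ : F →+* ℝ, 0 ≤ φ μ)
    (h : ∀ φ : F →+* ℝ, 16 * (φ y / 4) ^ (2 * K) * (φ κ * φ μ) ≤ (φ x) ^ 2) :
    (∏ φ : F →+* ℝ, φ y) ^ N ≤ (m : ℝ) ^ (Module.finrank ℚ F) * (∏ φ : F →+* ℝ, φ x) ^ N := by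
  set d := Module.finrank ℚ F with hd
  set Ny := ∏ φ : F →+* ℝ, φ y with hNy
  set Nx := ∏ φ : F →+* ℝ, φ x with hNx
  set Pk := ∏ φ : F →+* ℝ, φ κ with hPk
  set Pm := ∏ φ : F →+* ℝ, φ μ with hPm
  have hcard : Fintype.card (F →+* ℝ) = d := card_real hTR
  have hNy0 : 0 < Ny := Finset.prod_pos fun φ _ => hy φ
  have hNx0 : 0 < Nx := Finset.prod_pos fun φ _ => hx φ
  have hPk0 : 0 ≤ Pk := Finset.prod_nonneg fun φ _ => hκp φ
  have hPm0 : 0 ≤ Pm := Finset.prod_nonneg fun φ _ => hμp φ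
  have hcst : ∀ c : ℝ, ∏ _φ : F →+* ℝ, c = c ^ d := fun c => by
    rw [Finset.prod_const, Finset.card_univ, hcard]
  have h5 : ∀ κ : F, (∀ φ : F →+* ℝ, 0 ≤ φ κ) → κ ≠ 0 → IsIntegral ℤ ((m : F) * κ ^ N) →
      1 ≤ (m : ℝ) ^ d * (∏ φ : F →+* ℝ, φ κ) ^ N := by
    intro κ hp h0 hi
    have h6 := one_le_prod_real hTR _ hi (mul_ne_zero (Nat.cast_ne_zero.mpr hm)
      (pow_ne_zero _ h0))
    have h7 : ∏ φ : F →+* ℝ, φ ((m : F) * κ ^ N) = (m : ℝ) ^ d * (∏ φ : F →+* ℝ, φ κ) ^ N := by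
      simp_rw [map_mul, map_pow, map_natCast]
      rw [Finset.prod_mul_distrib, hcst, Finset.prod_pow]
    rw [h7, abs_of_nonneg] at h6
    · exact h6
    · have := Finset.prod_nonneg fun φ (_ : φ ∈ (Finset.univ : Finset (F →+* ℝ))) => hp φ
      positivity
  have hk1 := h5 κ hκp hκ0 hκ
  have hm1 := h5 μ hμp hμ0 hμ
  rw [← hPk] at hk1
  rw [← hPm] at hm1
  have hprod : 16 ^ d * (Ny / 4 ^ d) ^ (2 * K) * (Pk * Pm) ≤ Nx ^ 2 := by
    have h6 : ∏ φ : F →+* ℝ, (16 * (φ y / 4) ^ (2 * K) * (φ κ * φ μ)) ≤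
        ∏ φ : F →+* ℝ, (φ x) ^ 2 := by
      apply Finset.prod_le_prod
      · intro φ _
        have := hy φ
        have := hκp φ
        have := hμp φ
        positivity
      · intro φ _
        exact h φ
    rw [Finset.prod_mul_distrib, Finset.prod_mul_distrib, Finset.prod_mul_distrib, hcst,
      Finset.prod_pow, Finset.prod_pow, Finset.prod_div_distrib, hcst] at h6
    exact h6
  have hge : (Ny / 4 ^ d) ^ 2 ≤ (Ny / 4 ^ d) ^ (2 * K) := by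
    apply pow_le_pow_right₀
    · rw [le_div_iff₀ (by positivity), one_mul]; exact h4.le
    · omega
  have h8 : Ny ^ 2 * (Pk * Pm) ≤ Nx ^ 2 := by
    calc Ny ^ 2 * (Pk * Pm) = 16 ^ d * (Ny / 4 ^ d) ^ 2 * (Pk * Pm) := by
          have : (16 : ℝ) ^ d = (4 ^ d) ^ 2 := by
            rw [← pow_mul, mul_comm d 2, pow_mul]; norm_num
          rw [this]
          field_simp
      _ ≤ 16 ^ d * (Ny / 4 ^ d) ^ (2 * K) * (Pk * Pm) := by
          apply mul_le_mul_of_nonneg_right _ (by positivity)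
          apply mul_le_mul_of_nonneg_left hge (by positivity)
      _ ≤ Nx ^ 2 := hprod
  have h9 : (Ny ^ 2 * (Pk * Pm)) ^ N ≤ (Nx ^ 2) ^ N := pow_le_pow_left₀ (by positivity) h8 N
  have h10 : (Ny ^ N) ^ 2 ≤ ((m : ℝ) ^ d * Nx ^ N) ^ 2 := by
    calc (Ny ^ N) ^ 2 = (Ny ^ N) ^ 2 * (1 * 1) := by ring
      _ ≤ (Ny ^ N) ^ 2 * (((m : ℝ) ^ d * Pk ^ N) * ((m : ℝ) ^ d * Pm ^ N)) := by
          apply mul_le_mul_of_nonneg_left _ (by positivity)
          apply mul_le_mul hk1 hm1 (by norm_num) (by positivity)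
      _ = ((m : ℝ) ^ d) ^ 2 * (Ny ^ 2 * (Pk * Pm)) ^ N := by
          rw [mul_pow, mul_pow]; ring
      _ ≤ ((m : ℝ) ^ d) ^ 2 * (Nx ^ 2) ^ N := mul_le_mul_of_nonneg_left h9 (by positivity)
      _ = ((m : ℝ) ^ d * Nx ^ N) ^ 2 := by ring
  exact le_of_sq_le_sq h10 (by positivity)

end Pool.Agent.TH843.PY
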