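import Pool.Agent.TH843.PY.Core3
import Pool.Agent.TH843.PY.Core5

/-!
# The tower `F ⊆ F(v) ⊆ F(v)(w)`: embeddings
-/

set_option autoImplicit false
open Polynomial NumberField IntermediateField

namespace Pool.Agent.TH843.PY

/-- The data of the tower. -/
structure Dat {F : Type} [Field F] [NumberField F] [Algebra F ℂ] (y : F) (q k D : ℕ) (P : ℤ[X])
    (R : (𝓞 F)[X]) (v w : ℂ) : Prop where
  tr : ∀ φ : F →+* ℂ, ∀ x : F, (φ x).im = 0
  hD : 0 < D
  dual : ∀ c : F, (∀ ω : 𝓞 F, IsIntegral ℤ (Algebra.trace ℚ F (c * ω))) →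
      IsIntegral ℤ ((D : F) * c)
  good : Good q P
  prime : q.Prime
  hd : Module.finrank ℚ F < q
  hv : aeval v P = 0
  unit : IsUnit R.leadingCoeff
  deg : R.natDegree = k
  hk : 1 ≤ k
  hw : aeval w (R.map (algebraMap (𝓞 F) F)) = v
  roots : ∀ φ : F →+* ℝ, ∀ t : ℝ, |t| < 4 → ∃ s : Finset ℝ, s.card = k ∧
      ∀ w ∈ s, w ^ 2 < φ y ∧ (R.map (φ.comp (algebraMap (𝓞 F) F))).eval w = t
  hy : IsIntegral ℤ y

/-- A ring homomorphism into `ℂ` on a simple extension is real if it is on the base field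
and on the generator. -/
theorem real_gen {K : Type*} [Field K] [Algebra K ℂ] (w : ℂ) (hw : IsIntegral K w)
    (ρ : K⟮w⟯ →+* ℂ) (h1 : ∀ a : K, (ρ (algebraMap K K⟮w⟯ a)).im = 0)
    (h2 : (ρ (AdjoinSimple.gen K w)).im = 0) (x : K⟮w⟯) : (ρ x).im = 0 := by
  obtain ⟨g, -, hg⟩ := (adjoin.powerBasis hw).exists_eq_aeval x
  rw [adjoin.powerBasis_gen] at hg
  rw [← Complex.conj_eq_iff_im, hg]
  have h3 : ∀ τ : K⟮w⟯ →+* ℂ, τ (aeval (AdjoinSimple.gen K w) g) =
      g.eval₂ (τ.comp (algebraMap K K⟮w⟯)) (τ (AdjoinSimple.gen K w)) := by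
    intro τ
    rw [aeval_def, hom_eval₂]
  have h4 := h3 ((starRingEnd ℂ).comp ρ)
  rw [RingHom.comp_apply] at h4
  rw [h4, h3 ρ]
  congr 1
  · ext a
    exact Complex.conj_eq_iff_im.mpr (h1 a)
  · exact Complex.conj_eq_iff_im.mpr h2

namespace Dat

variable {F : Type} [Field F] [NumberField F] [Algebra F ℂ] {y : F} {q k D : ℕ} {P : ℤ[X]}
    {R : (𝓞 F)[X]} {v w : ℂ}

theorem vint (h : Dat y q k D P R v w) : IsIntegral ℤ v :=
  ⟨P, h.good.monic, by rw [← aeval_def]; exact h.hv⟩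

theorem wint (h : Dat y q k D P R v w) : IsIntegral ℤ w :=
  integral_of_eval v h.vint R h.unit (by rw [h.deg]; exact h.hk) w h.hw

instance tower1 (v w : ℂ) : IsScalarTower F F⟮v⟯⟮w⟯ ℂ :=
  IsScalarTower.of_algebraMap_eq (fun _ => rfl)

omit [NumberField F] [Algebra F ℂ] in
theorem Rinj : Function.Injective (algebraMap (𝓞 F) F) := RingOfIntegers.coe_injective

theorem lc_ne (h : Dat y q k D P R v w) : R.leadingCoeff ≠ 0 := by
  intro h0
  have := h.unit
  rw [h0] at this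
  exact not_isUnit_zero this

/-- The conjugates of `w` are real and small. -/
theorem conj_w (h : Dat y q k D P R v w) (φ : F →+* ℂ) (v' w' : ℂ) (hv' : aeval v' P = 0)
    (hw' : (R.map (algebraMap (𝓞 F) F)).eval₂ φ w' = v') :
    ∃ u : ℝ, w' = u ∧ u ^ 2 < (φ y).re := by
  classical
  obtain ⟨hvi, hv4⟩ := h.good.real v' hv'
  set φr := toRealHom φ (h.tr φ) with hφr
  obtain ⟨s, hs, hsr⟩ := h.roots φr v'.re hv4
  have hφy : φr y = (φ y).re := rfl
  have hcomp : (φ.comp (algebraMap (𝓞 F) F)) =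
      Complex.ofRealHom.comp (φr.comp (algebraMap (𝓞 F) F)) := by
    ext a
    exact (toRealHom_coe φ (h.tr φ) _).symm
  set p : ℂ[X] := R.map (φ.comp (algebraMap (𝓞 F) F)) - C v' with hp
  have hφinj : Function.Injective (φ.comp (algebraMap (𝓞 F) F)) :=
    φ.injective.comp Rinj
  have hpdeg : p.natDegree = k := by
    rw [hp, natDegree_sub_C, natDegree_map_eq_of_injective hφinj, h.deg]
  have hp0 : p ≠ 0 := by
    intro h0; rw [h0, natDegree_zero] at hpdeg; have := h.hk; omega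
  have hroot : ∀ u ∈ s, p.eval (u : ℂ) = 0 := by
    intro u hu
    have h1 := (hsr u hu).2
    rw [hp, eval_sub, eval_C, hcomp, ← Polynomial.map_map]
    rw [show ((u : ℝ) : ℂ) = Complex.ofRealHom u from rfl, eval_map_apply, h1]
    apply sub_eq_zero.mpr
    apply Complex.ext
    · simp
    · simp [hvi]
  have hw0 : p.eval w' = 0 := by
    rw [hp, eval_sub, eval_C, eval_map, ← eval₂_map, hw', sub_self]
  by_cases hmem : w' ∈ s.image (fun u : ℝ => (u : ℂ))
  · obtain ⟨u, hu, rfl⟩ := Finset.mem_image.mp hmem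
    exact ⟨u, rfl, by rw [← hφy]; exact (hsr u hu).1⟩
  · exfalso
    have hcard : (insert w' (s.image (fun u : ℝ => (u : ℂ)))).card = k + 1 := by
      rw [Finset.card_insert_of_notMem hmem,
        Finset.card_image_of_injective _ Complex.ofReal_injective, hs]
    have hle : (insert w' (s.image (fun u : ℝ => (u : ℂ)))).card ≤ p.natDegree := by
      apply card_le_degree_of_subset_roots
      intro a ha
      rw [mem_roots hp0]
      rw [Finset.mem_val, Finset.mem_insert] at ha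
      rcases ha with rfl | ha
      · exact hw0
      · obtain ⟨u, hu, rfl⟩ := Finset.mem_image.mp ha
        exact hroot u hu
    omega

theorem vgen (_h : Dat y q k D P R v w) :
    (algebraMap F⟮v⟯ F⟮v⟯⟮w⟯ (AdjoinSimple.gen F v) : F⟮v⟯⟮w⟯) =
      aeval (AdjoinSimple.gen F⟮v⟯ w) (R.map (algebraMap (𝓞 F) F)) := by
  apply (algebraMap F⟮v⟯⟮w⟯ ℂ).injective
  rw [← aeval_algebraMap_apply, AdjoinSimple.algebraMap_gen, _h.hw]
  rfl

/-- Embeddings of the field `M = F(v)(w)`, in the form usable for extensions of `M`. -/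
theorem embed_M (h : Dat y q k D P R v w) (ρ : F⟮v⟯⟮w⟯ →+* ℂ) :
    (∀ a, (ρ a).im = 0) ∧ ∃ u : ℝ, ρ (AdjoinSimple.gen F⟮v⟯ w) = u ∧
      u ^ 2 < (ρ (algebraMap F F⟮v⟯⟮w⟯ y)).re := by
  set φ : F →+* ℂ := ρ.comp (algebraMap F F⟮v⟯⟮w⟯) with hφ
  set ρ1 : F⟮v⟯ →+* ℂ := ρ.comp (algebraMap F⟮v⟯ F⟮v⟯⟮w⟯) with hρ1
  have hvK : IsIntegral F v := h.vint.tower_top
  have hwK : IsIntegral F⟮v⟯ w := h.wint.tower_top
  have hv' : aeval (ρ1 (AdjoinSimple.gen F v)) P = 0 := by
    have h1 : aeval (AdjoinSimple.gen F v) P = 0 := by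
      apply (algebraMap F⟮v⟯ ℂ).injective
      rw [map_zero, ← aeval_algebraMap_apply, AdjoinSimple.algebraMap_gen, h.hv]
    have h2 : aeval (ρ1 (AdjoinSimple.gen F v)) P = ρ1 (aeval (AdjoinSimple.gen F v) P) := by
      rw [aeval_def, aeval_def, hom_eval₂]
      congr 1
      exact RingHom.ext_int _ _
    rw [h2, h1, map_zero]
  have hw' : (R.map (algebraMap (𝓞 F) F)).eval₂ φ (ρ (AdjoinSimple.gen F⟮v⟯ w)) =
      ρ1 (AdjoinSimple.gen F v) := by
    rw [hρ1, RingHom.comp_apply, h.vgen, aeval_def, hom_eval₂]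
  obtain ⟨u, hu1, hu2⟩ := h.conj_w φ _ _ hv' hw'
  refine ⟨?_, u, hu1, hu2⟩
  apply real_gen w hwK ρ
  · intro a
    apply real_gen v hvK ρ1
    · intro b
      exact h.tr φ b
    · exact (h.good.real _ hv').1
  · rw [hu1]; simp

/-- Polynomials of small degree vanishing at `w` are zero. -/
theorem vanish (h : Dat y q k D P R v w) (p : F[X]) (hp : p.natDegree < q) (hw : aeval w p = 0) :
    p = 0 := by
  by_contra hne
  have hwK : IsIntegral F w := h.wint.tower_top
  have := adjoin.finiteDimensional hwK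
  have hmem : v ∈ F⟮w⟯ := by
    rw [← h.hw]
    have : aeval w (R.map (algebraMap (𝓞 F) F)) =
        ((aeval (AdjoinSimple.gen F w) (R.map (algebraMap (𝓞 F) F)) : F⟮w⟯) : ℂ) := by
      conv_lhs => rw [← AdjoinSimple.algebraMap_gen F w]
      rw [aeval_algebraMap_apply]
      rfl
    rw [this]
    exact SetLike.coe_mem _
  have h1 : (minpoly F (⟨v, hmem⟩ : F⟮w⟯)).natDegree ∣ Module.finrank F F⟮w⟯ :=
    minpoly.degree_dvd (IsIntegral.of_finite F _)
  have h2 : minpoly F (⟨v, hmem⟩ : F⟮w⟯) = minpoly F v := by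
    rw [← minpoly.algebraMap_eq (algebraMap F⟮w⟯ ℂ).injective]
    rfl
  rw [h2, minpoly_lift h.good h.prime h.hd v h.hv, h.good.monic.natDegree_map, h.good.deg,
    adjoin.finrank hwK] at h1
  have h3 : q ≤ (minpoly F w).natDegree := Nat.le_of_dvd (minpoly.natDegree_pos hwK) h1
  have h4 : (minpoly F w).natDegree ≤ p.natDegree :=
    natDegree_le_of_dvd (minpoly.dvd F w hw) hne
  omega

end Dat

end Pool.Agent.TH843.PY
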