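import Pool.Agent.TH843.PY.Core7

/-!
# The quadratic extension `E = M(u)`, `u ^ 2 = y - w ^ 2`
-/

set_option autoImplicit false
open Polynomial NumberField IntermediateField

namespace Pool.Agent.TH843.PY

/-- Coordinates of an integral element of a quadratic extension. -/
theorem quad_abs {M : Type} [Field M] [CharZero M] [Algebra M ℂ] (c : M) (hcne : c ≠ 0) (u : ℂ)
    (hcu : u ^ 2 = algebraMap M ℂ c) (huint : IsIntegral ℤ u) (z : M⟮u⟯) (hz : IsIntegral ℤ z)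
    (X0 Y : ℝ) (hX0 : 1 ≤ X0) (hY1 : 1 ≤ Y) (hzX : ∀ ρ : M⟮u⟯ →+* ℂ, ‖ρ z‖ ≤ X0)
    (hgY : ∀ ρ : M⟮u⟯ →+* ℂ, ‖ρ (AdjoinSimple.gen M u)‖ ≤ Y) :
    ∃ a b ν : M, 2 * u * (z : ℂ) = algebraMap M ℂ b + algebraMap M ℂ a * u ∧ IsIntegral ℤ a ∧
      IsIntegral ℤ b ∧ IsIntegral ℤ ν ∧ (∀ ρ : M →+* ℂ, ‖ρ a‖ ≤ 2 * X0) ∧
      (∀ ρ : M →+* ℂ, ‖ρ b‖ ≤ 2 * (X0 * Y)) ∧
      algebraMap M ℂ ν = z * (algebraMap M ℂ a - z) ∧
      ∀ ρ : M →+* ℂ, ‖ρ ν‖ ≤ 3 * X0 ^ 2 := by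
  have huK : IsIntegral M u := huint.tower_top
  have := adjoin.finiteDimensional huK
  set f : M[X] := X ^ 2 - C c with hf
  have hfdeg : f.natDegree = 2 := natDegree_X_pow_sub_C
  have hfu : aeval u f = 0 := by
    rw [hf, map_sub, map_pow, aeval_X, aeval_C, hcu, sub_self]
  have hfr : Module.finrank M M⟮u⟯ ≤ 2 := by
    rw [adjoin.finrank huK, ← hfdeg]
    apply natDegree_le_of_dvd (minpoly.dvd _ _ hfu)
    intro h0
    rw [h0, natDegree_zero] at hfdeg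
    omega
  set g := AdjoinSimple.gen M u with hg
  have hgint : IsIntegral ℤ g := by
    have h1 : IsIntegral ℤ (algebraMap M⟮u⟯ ℂ g) := by
      rw [AdjoinSimple.algebraMap_gen]; exact huint
    exact (isIntegral_algebraMap_iff (algebraMap M⟮u⟯ ℂ).injective).mp h1
  set a := Algebra.trace M M⟮u⟯ z with ha
  set b := Algebra.trace M M⟮u⟯ (z * g) with hb
  have hmain : 2 * u * (z : ℂ) = algebraMap M ℂ b + algebraMap M ℂ a * u := by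
    have hE := euler_lemma u huK f hfu z
    rw [hfdeg] at hE
    have hder : aeval u (derivative f) = 2 * u := by
      rw [hf, derivative_sub, derivative_C, derivative_X_pow, sub_zero, map_mul]
      norm_num
      left
      exact map_ofNat _ _
    rw [hder] at hE
    rw [hE]
    simp only [Finset.sum_range_succ, Finset.sum_range_zero]
    have c1 : f.coeff 1 = 0 := by
      rw [hf, coeff_sub, coeff_X_pow, coeff_C_of_ne_zero one_ne_zero]; simp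
    have c2 : f.coeff 2 = 1 := by
      rw [hf, coeff_sub, coeff_X_pow, coeff_C_of_ne_zero two_ne_zero]; simp
    rw [c1, c2]
    simp only [map_zero, map_one, zero_mul, one_mul, zero_add, pow_zero, pow_one,
      mul_one]
    rw [hb, ha, hg]
    simp
  have haint : IsIntegral ℤ a := Algebra.isIntegral_trace hz
  have hbint : IsIntegral ℤ b := Algebra.isIntegral_trace (hz.mul hgint)
  have hab : ∀ ρ : M →+* ℂ, ‖ρ a‖ ≤ 2 * X0 := by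
    intro ρ
    refine (trace_bound z X0 hzX ρ).trans ?_
    apply mul_le_mul_of_nonneg_right _ (by linarith)
    exact_mod_cast hfr
  have hbb : ∀ ρ : M →+* ℂ, ‖ρ b‖ ≤ 2 * (X0 * Y) := by
    intro ρ
    refine (trace_bound (z * g) (X0 * Y) ?_ ρ).trans ?_
    · intro ρ'
      rw [map_mul, norm_mul]
      exact mul_le_mul (hzX ρ') (hgY ρ') (norm_nonneg _) (by linarith)
    · apply mul_le_mul_of_nonneg_right _ (by positivity)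
      exact_mod_cast hfr
  have hc0 : algebraMap M ℂ c ≠ 0 := by
    rw [Ne, _root_.map_eq_zero]; exact hcne
  have hu0 : u ≠ 0 := by
    intro h0
    rw [← hcu, h0] at hc0
    exact hc0 (by ring)
  set ν : M := (a ^ 2 - b ^ 2 / c) / 4 with hν
  have hνcoe : algebraMap M ℂ ν = z * (algebraMap M ℂ a - z) := by
    have e1 : algebraMap M ℂ ν =
        ((algebraMap M ℂ a) ^ 2 - (algebraMap M ℂ b) ^ 2 / (algebraMap M ℂ c)) / 4 := by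
      rw [hν, map_div₀, map_sub, map_div₀, map_pow, map_pow, map_ofNat]
    rw [e1, ← hcu]
    have e2 : (z : ℂ) = (algebraMap M ℂ b + algebraMap M ℂ a * u) / (2 * u) := by
      rw [← hmain]; field_simp
    rw [e2]
    field_simp
    ring
  have hνE : algebraMap M M⟮u⟯ ν = z * (algebraMap M M⟮u⟯ a - z) := by
    apply (algebraMap M⟮u⟯ ℂ).injective
    rw [map_mul, map_sub, ← IsScalarTower.algebraMap_apply, ← IsScalarTower.algebraMap_apply]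
    exact hνcoe
  refine ⟨a, b, ν, hmain, haint, hbint, ?_, hab, hbb, hνcoe, ?_⟩
  · have h1 : IsIntegral ℤ (algebraMap M M⟮u⟯ ν) := by
      rw [hνE]
      exact hz.mul ((haint.map (algebraMap M M⟮u⟯).toIntAlgHom).sub hz)
    exact (isIntegral_algebraMap_iff (algebraMap M M⟮u⟯).injective).mp h1
  · intro ρ
    obtain ⟨ρ', hρ'⟩ := exists_extend (K := M) (E := M⟮u⟯) ρ
    rw [← hρ', hνE, map_mul, map_sub, norm_mul]
    have e1 := hzX ρ'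
    have e2 : ‖ρ' (algebraMap M M⟮u⟯ a) - ρ' z‖ ≤ 2 * X0 + X0 := by
      refine (norm_sub_le _ _).trans (add_le_add ?_ e1)
      rw [hρ']; exact hab ρ
    calc ‖ρ' z‖ * ‖ρ' (algebraMap M M⟮u⟯ a) - ρ' z‖ ≤ X0 * (2 * X0 + X0) :=
          mul_le_mul e1 e2 (norm_nonneg _) (by linarith)
      _ = 3 * X0 ^ 2 := by ring

namespace Dat

variable {F : Type} [Field F] [NumberField F] [Algebra F ℂ] {y : F} {q k D : ℕ} {P : ℤ[X]}
    {R : (𝓞 F)[X]} {v w : ℂ}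

theorem uint (h : Dat y q k D P R v w) (u : ℂ) (hu : u ^ 2 = algebraMap F ℂ y - w ^ 2) :
    IsIntegral ℤ u := by
  apply IsIntegral.of_pow (n := 2) (by norm_num)
  rw [hu]
  exact (h.hy.map (algebraMap F ℂ).toIntAlgHom).sub (h.wint.pow 2)

/-- The square of `u` in `M`. -/
noncomputable def cM (y : F) (v w : ℂ) : F⟮v⟯⟮w⟯ :=
  algebraMap F F⟮v⟯⟮w⟯ y - AdjoinSimple.gen F⟮v⟯ w ^ 2

omit [NumberField F] in
theorem cM_coe (y : F) (v w : ℂ) :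
    ((cM y v w : F⟮v⟯⟮w⟯) : ℂ) = algebraMap F ℂ y - w ^ 2 := by
  show algebraMap F⟮v⟯⟮w⟯ ℂ (cM y v w) = _
  rw [cM, map_sub, map_pow, AdjoinSimple.algebraMap_gen, ← IsScalarTower.algebraMap_apply]

theorem emb_cM (h : Dat y q k D P R v w) (Y : ℝ)
    (hY : ∀ φ : F →+* ℂ, ‖φ y‖ ≤ Y) (ρ : F⟮v⟯⟮w⟯ →+* ℂ) :
    ∃ t : ℝ, 0 < t ∧ t ≤ Y ∧ ρ (cM y v w) = t := by
  obtain ⟨hr, t, ht1, ht2⟩ := h.embed_M ρ
  have h1 := h.emb_y hY (ρ.comp (algebraMap F F⟮v⟯⟮w⟯))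
  rw [RingHom.comp_apply] at h1
  have h3 : ρ (algebraMap F F⟮v⟯⟮w⟯ y) = ((ρ (algebraMap F F⟮v⟯⟮w⟯ y)).re : ℂ) :=
    Complex.ext (by simp) (by simp [hr])
  refine ⟨(ρ (algebraMap F F⟮v⟯⟮w⟯ y)).re - t ^ 2, by linarith, by nlinarith [sq_nonneg t], ?_⟩
  rw [cM, map_sub, map_pow, ht1, h3]
  simp

theorem cM_ne (h : Dat y q k D P R v w) : cM y v w ≠ 0 := by
  obtain ⟨hr, t, ht1, ht2⟩ := h.embed_M (algebraMap F⟮v⟯⟮w⟯ ℂ)
  intro h0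
  have h1 : algebraMap F⟮v⟯⟮w⟯ ℂ (cM y v w) = 0 := by rw [h0, map_zero]
  rw [cM, map_sub, map_pow, ht1, sub_eq_zero] at h1
  rw [h1] at ht2
  simp only [← Complex.ofReal_pow, Complex.ofReal_re] at ht2
  exact lt_irrefl _ ht2

theorem embed_E (h : Dat y q k D P R v w) (Y : ℝ) (hY1 : 1 ≤ Y)
    (hY : ∀ φ : F →+* ℂ, ‖φ y‖ ≤ Y) (u : ℂ) (hu : u ^ 2 = algebraMap F ℂ y - w ^ 2)
    (ρ : F⟮v⟯⟮w⟯⟮u⟯ →+* ℂ) :
    (∀ a, (ρ a).im = 0) ∧ ‖ρ (AdjoinSimple.gen F⟮v⟯⟮w⟯ u)‖ ≤ Y := by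
  obtain ⟨t, ht0, htY, ht⟩ := h.emb_cM Y hY (ρ.comp (algebraMap F⟮v⟯⟮w⟯ F⟮v⟯⟮w⟯⟮u⟯))
  rw [RingHom.comp_apply] at ht
  have hgen : (AdjoinSimple.gen F⟮v⟯⟮w⟯ u) ^ 2 =
      algebraMap F⟮v⟯⟮w⟯ F⟮v⟯⟮w⟯⟮u⟯ (cM y v w) := by
    apply (algebraMap F⟮v⟯⟮w⟯⟮u⟯ ℂ).injective
    rw [map_pow, AdjoinSimple.algebraMap_gen, hu]
    exact (cM_coe y v w).symm
  have h2 : (ρ (AdjoinSimple.gen F⟮v⟯⟮w⟯ u)) ^ 2 = (t : ℂ) := by
    rw [← map_pow, hgen, ht]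
  set g := ρ (AdjoinSimple.gen F⟮v⟯⟮w⟯ u) with hg
  have him : g.im = 0 := by
    have e1 := congrArg Complex.re h2
    have e2 := congrArg Complex.im h2
    rw [pow_two, Complex.mul_re, Complex.ofReal_re] at e1
    rw [pow_two, Complex.mul_im, Complex.ofReal_im] at e2
    have e3 : g.re * g.im = 0 := by linarith
    rcases mul_eq_zero.mp e3 with e4 | e4
    · rw [e4] at e1
      nlinarith [sq_nonneg g.im]
    · exact e4
  refine ⟨?_, ?_⟩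
  · have hwK : IsIntegral F⟮v⟯⟮w⟯ u := (h.uint u hu).tower_top
    apply real_gen u hwK ρ _ him
    intro a
    exact (h.embed_M (ρ.comp (algebraMap F⟮v⟯⟮w⟯ F⟮v⟯⟮w⟯⟮u⟯))).1 a
  · have e1 : ‖g‖ ^ 2 = t := by
      rw [← norm_pow, h2, Complex.norm_real, Real.norm_eq_abs, abs_of_pos ht0]
    nlinarith [norm_nonneg g]

/-- Coordinates of an integral element of the quadratic extension. -/
theorem quad (h : Dat y q k D P R v w) (Y : ℝ) (hY1 : 1 ≤ Y)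
    (hY : ∀ φ : F →+* ℂ, ‖φ y‖ ≤ Y) (u : ℂ) (hu : u ^ 2 = algebraMap F ℂ y - w ^ 2)
    (z : F⟮v⟯⟮w⟯⟮u⟯) (hz : IsIntegral ℤ z) (X0 : ℝ) (hX0 : 1 ≤ X0)
    (hzX : ∀ ρ : F⟮v⟯⟮w⟯⟮u⟯ →+* ℂ, ‖ρ z‖ ≤ X0) :
    ∃ a b ν : F⟮v⟯⟮w⟯, 2 * u * (z : ℂ) = (b : ℂ) + a * u ∧ IsIntegral ℤ a ∧ IsIntegral ℤ b ∧
      IsIntegral ℤ ν ∧ (∀ ρ : F⟮v⟯⟮w⟯ →+* ℂ, ‖ρ a‖ ≤ 2 * X0) ∧
      (∀ ρ : F⟮v⟯⟮w⟯ →+* ℂ, ‖ρ b‖ ≤ 2 * (X0 * Y)) ∧ (ν : ℂ) = z * (a - z) ∧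
      ∀ ρ : F⟮v⟯⟮w⟯ →+* ℂ, ‖ρ ν‖ ≤ 3 * X0 ^ 2 :=
  quad_abs (cM y v w) h.cM_ne u (by rw [hu]; exact (cM_coe y v w).symm) (h.uint u hu) z hz X0 Y
    hX0 hY1 hzX (fun ρ => (h.embed_E Y hY1 hY u hu ρ).2)

end Dat

end Pool.Agent.TH843.PY
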