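import Mathlib

/-!
# Pythagoras numbers of rings of integers of infinite totally real fields: definitions
-/

set_option autoImplicit false
open Polynomial NumberField

namespace Pool.Agent.TH843.PY

/-- `x` is a sum of `r` squares of algebraic integers of the field `K ⊆ ℂ`. -/
def SS (K : IntermediateField ℚ ℂ) (r : ℕ) (x : ℂ) : Prop :=
  ∃ f : Fin r → ℂ, (∀ i, f i ∈ K ∧ IsIntegral ℤ (f i)) ∧ x = ∑ i, f i ^ 2

/-- `K` is totally real. -/
def TR (K : IntermediateField ℚ ℂ) : Prop := ∀ φ : K →+* ℂ, ∀ x : K, (φ x).im = 0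

/-- The statement for one value `n` of the Pythagoras number. -/
def Target (n : ℕ) : Prop :=
      ∃ (K : Type) (_ : Field K) (_ : CharZero K),
        Algebra.IsAlgebraic ℚ K ∧
        ¬ FiniteDimensional ℚ K ∧
        (∀ φ : K →+* ℂ, ∀ x : K, (φ x).im = 0) ∧
        (∀ x : K,
          (∃ m : ℕ, ∃ g : Fin m → K, (∀ i, IsIntegral ℤ (g i)) ∧ x = ∑ i, g i ^ 2) →
          ∃ f : Fin n → K, (∀ i, IsIntegral ℤ (f i)) ∧ x = ∑ i, f i ^ 2) ∧
        (∃ x : K,
          (∃ m : ℕ, ∃ g : Fin m → K, (∀ i, IsIntegral ℤ (g i)) ∧ x = ∑ i, g i ^ 2) ∧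
          ∀ f : Fin (n - 1) → K, (∀ i, IsIntegral ℤ (f i)) → x ≠ ∑ i, f i ^ 2)

/-- The polynomials used for the high-degree extensions: irreducible of degree `q`, all roots real
in `(-4, 4)`, monogenic, and with a bound for the leading coefficient of a polynomial of small
degree which is bounded on the roots. -/
structure Good (q : ℕ) (P : ℤ[X]) : Prop where
  monic : P.Monic
  deg : P.natDegree = q
  irr : Irreducible (P.map (Int.castRingHom ℚ))
  real : ∀ v : ℂ, aeval v P = 0 → v.im = 0 ∧ |v.re| < 4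
  lead : ∀ (g : ℂ[X]) (B : ℝ), g.natDegree < q → (∀ v : ℂ, aeval v P = 0 → ‖g.eval v‖ ≤ B) →
    ‖g.leadingCoeff‖ * 2 ^ g.natDegree ≤ 2 * B
  mono : ∀ v : ℂ, aeval v P = 0 → ∀ g : ℚ[X], g.natDegree < q → IsIntegral ℤ (aeval v g) →
    ∃ g' : ℤ[X], g'.map (Int.castRingHom ℚ) = g

end Pool.Agent.TH843.PY
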