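import Pool.Agent.TH843.PY.Defs

/-!
# Statements of the steps
-/

set_option autoImplicit false
open Polynomial NumberField

namespace Pool.Agent.TH843.PY

/-- Existence of good polynomials of arbitrarily large prime degree. -/
def StmA : Prop := ∀ N : ℕ, ∃ q : ℕ, N < q ∧ q.Prime ∧ ∃ P : ℤ[X], Good q P

/-- The parameters of the Dickson polynomial. -/
def GoodPar (q : ℕ) (t : ℤ) : Prop :=
  q.Prime ∧ 5 ≤ q ∧ Odd t ∧ |t| ≤ 2 ^ q ∧ (q : ℤ) ∣ t ∧ ¬ ((q : ℤ) ^ 2 ∣ t) ∧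
  ∀ p : ℕ, p.Prime → ¬ ((p : ℤ) ^ 2 ∣ 2 ^ (q + 1) - t) ∧ ¬ ((p : ℤ) ^ 2 ∣ 2 ^ (q + 1) + t)

/-- `DP q t` has the value `x ^ q + (4 / x) ^ q - t` at `x + 4 / x`. -/
noncomputable def DP (q : ℕ) (t : ℤ) : ℤ[X] := dickson 1 4 q - C t

/-- Sieve step. -/
def StmA1 : Prop := ∀ N : ℕ, ∃ q : ℕ, N < q ∧ ∃ t : ℤ, GoodPar q t

/-- Monogenicity. -/
def StmA2 : Prop := ∀ (q : ℕ) (t : ℤ), GoodPar q t → ∀ v : ℂ, aeval v (DP q t) = 0 →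
  ∀ g : ℚ[X], g.natDegree < q → IsIntegral ℤ (aeval v g) →
    ∃ g' : ℤ[X], g'.map (Int.castRingHom ℚ) = g

/-- The roots and the leading coefficient bound. -/
def StmA3 : Prop := ∀ (q : ℕ) (t : ℤ), GoodPar q t →
  (DP q t).Monic ∧ (DP q t).natDegree = q ∧ Irreducible ((DP q t).map (Int.castRingHom ℚ)) ∧
  (∀ v : ℂ, aeval v (DP q t) = 0 → v.im = 0 ∧ |v.re| < 4) ∧
  (∀ (g : ℂ[X]) (B : ℝ), g.natDegree < q → (∀ v : ℂ, aeval v (DP q t) = 0 → ‖g.eval v‖ ≤ B) →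
    ‖g.leadingCoeff‖ * 2 ^ g.natDegree ≤ 2 * B)

/-- Robinson-type polynomials over a totally real field. -/
def StmB : Prop := ∀ (F : Type) [Field F] [NumberField F],
  (∀ φ : F →+* ℂ, ∀ x : F, (φ x).im = 0) →
  ∀ y : 𝓞 F, (∀ φ : F →+* ℝ, 0 < φ y) →
  (4 : ℝ) ^ (Module.finrank ℚ F) < ∏ φ : F →+* ℝ, φ y →
  ∃ R : (𝓞 F)[X], IsUnit R.leadingCoeff ∧ 1 ≤ R.natDegree ∧
    ∀ φ : F →+* ℝ, ∀ t : ℝ, |t| < 4 → ∃ s : Finset ℝ, s.card = R.natDegree ∧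
      ∀ w ∈ s, w ^ 2 < φ y ∧ (R.map (φ.comp (algebraMap (𝓞 F) F))).eval w = t

/-- Units and rounding. -/
def StmB1 : Prop := ∀ (F : Type) [Field F] [NumberField F],
  (∀ φ : F →+* ℂ, ∀ x : F, (φ x).im = 0) →
  ∃ C : ℝ, 1 ≤ C ∧ ∀ s : (F →+* ℝ) → ℝ, (∀ φ, 0 < s φ) → ∏ φ, s φ = 1 →
    (∃ u : (𝓞 F)ˣ, ∀ φ : F →+* ℝ, s φ / C ≤ |φ (u : 𝓞 F)| ∧ |φ (u : 𝓞 F)| ≤ C * s φ) ∧
    ∀ r : (F →+* ℝ) → ℝ, ∃ c : 𝓞 F, ∀ φ : F →+* ℝ, |φ c - r φ| ≤ C * s φ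

/-- Lengths are unbounded. -/
def StmE : Prop := ∀ n : ℕ, ∃ F : IntermediateField ℚ ℂ, FiniteDimensional ℚ F ∧ TR F ∧
  ∃ x : ℂ, (∃ m, SS F m x) ∧ ¬ SS F n x

/-- The main extension lemma. -/
def StmML : Prop := ∀ (F : IntermediateField ℚ ℂ), FiniteDimensional ℚ F → TR F →
  ∀ (x y : F) (r : ℕ), IsIntegral ℤ x → IsIntegral ℤ y →
  (∀ φ : F →+* ℂ, 0 < (φ y).re) →
  (4 : ℚ) ^ (Module.finrank ℚ F) < |Algebra.norm ℚ y| →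
  |Algebra.norm ℚ x| < |Algebra.norm ℚ y| → ¬ SS F r (x : ℂ) →
  ∃ F' : IntermediateField ℚ ℂ, F < F' ∧ FiniteDimensional ℚ F' ∧ TR F' ∧
    SS F' 2 (y : ℂ) ∧ ¬ SS F' r (x : ℂ)

/-- The tower. -/
def StmF : Prop := StmML → StmE → ∀ n : ℕ, 3 ≤ n → Target n

end Pool.Agent.TH843.PY
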